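import Pool.Agent.J6H58.MC.Stm

/-!
# Strings and truth of dyadic instances
-/

set_option autoImplicit false

namespace Pool.Agent.J6H58.MC

open Pool.Agent.TH672 (Fm Str upd varStr num digits LogK ReplK Sw Pv upd_self upd_same upd_ne
  upd_upd upd_comm)
open Pool.Agent.TH636.BC (Fml Step IsProof str strs Proves code robinson Arith PrRel lt col
  St Ok Agr Eqs AddS MulS SuccS Vlt)
open Pool.Agent.TH197.J1545 (num_snoc num_app digits_zero digits_odd digits_even digits_num
  num_inj strs_cons strs_append code_inj)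
open Pool.Agent.TH838.J1549 (Q exists_Q sat_cong)
open Pool.Agent.J6H49.BC (WB XX OpP Tru Wn)

/-! ### the strings -/

theorem str_dig (x : ℕ) (b : Bool) (φ : Fml) : str (dig x b φ) = pd x b ++ str φ := by
  cases b <;> simp [dig, pd, str]

theorem str_digs (x : ℕ) (φ : Fml) : ∀ σ : List Bool,
    str (σ.foldr (dig x) φ) = σ.flatMap (pd x) ++ str φ
  | [] => by simp
  | b :: σ => by
    rw [List.foldr_cons, str_dig, str_digs x φ σ, List.flatMap_cons, List.append_assoc]

theorem str_dnum (x n : ℕ) (φ : Fml) :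
    str (dnum x n φ) = pz x ++ (digits n).flatMap (pd x) ++ str φ := by
  have e : str (dnum x n φ) = pz x ++ str ((digits n).foldr (dig x) φ) := by
    simp [dnum, pz, str]
  rw [e, str_digs, List.append_assoc]

theorem digits_code (Γ : List Fml) : digits (code Γ) = strs Γ := digits_num _

theorem num_strs (Γ : List Fml) : num (strs Γ) = code Γ := rfl

theorem num_digits (n : ℕ) : num (digits n) = n := by
  induction n using Nat.strong_induction_on with
  | _ n ih =>
    rcases Nat.eq_zero_or_pos n with rfl | hn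
    · rw [digits_zero]; rfl
    · have hc : n = 2 * ((n - 1) / 2) + 1 ∨ n = 2 * ((n - 1) / 2) + 2 := by omega
      have h1 := ih ((n - 1) / 2) (by omega)
      rcases hc with hc | hc
      · rw [hc, digits_odd, num_snoc, h1]; simp
      · rw [hc, digits_even, num_snoc, h1]; simp

theorem digits_two_pow (k : ℕ) : digits (2 ^ (k + 1)) = List.replicate k false ++ [true] := by
  have h : ∀ k : ℕ, num (List.replicate k false) = 2 ^ k - 1 := by
    intro k
    induction k with
    | zero => rfl
    | succ k ih =>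
      rw [List.replicate_succ', num_snoc, ih]
      have := Nat.one_le_two_pow (n := k)
      simp only [Bool.false_eq_true, if_false]
      rw [pow_succ]
      omega
  have e : 2 ^ (k + 1) = num (List.replicate k false ++ [true]) := by
    rw [num_snoc, h]
    have := Nat.one_le_two_pow (n := k)
    simp only [if_true]
    rw [pow_succ]
    omega
  rw [e, digits_num]

theorem flatMap_replicate (k : ℕ) (f : Bool → List Bool) :
    (List.replicate k false).flatMap f = (List.replicate k (f false)).flatten := by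
  rw [List.flatMap_def, List.map_replicate]

theorem strs_AA (P G : Fml) : strs (AA P G) = sA (zn P G) := by
  unfold AA rgs sA
  rw [strs_cons, str_dnum]
  have e : digits (zn P G) = str (rg P G) ++ strs WF := by
    unfold zn
    rw [digits_code, strs_cons]
  rw [e]
  simp only [List.append_assoc]

theorem str_conD (P : Fml) (Γ : List Fml) :
    str (conD P Γ) = pz 2 ++ (strs Γ).flatMap (pd 2) ++ str (Xi P) := by
  unfold conD
  rw [str_dnum, digits_code]
  rfl

theorem str_conAtD (P : Fml) (Γ : List Fml) (k : ℕ) :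
    str (conAtD P Γ (2 ^ (k + 1))) =
      pz 3 ++ (List.replicate k (pd 3 false)).flatten ++ pd 3 true ++ pz 2 ++
        (strs Γ).flatMap (pd 2) ++ str (Xi P) := by
  unfold conAtD
  rw [str_dnum, digits_two_pow, List.flatMap_append, flatMap_replicate, str_conD]
  simp [List.append_assoc]

theorem code_ext (P G : Fml) (k : ℕ) :
    code (conAtD P (AA P G) (2 ^ (k + 1)) :: AA P G) =
      num (pz 3 ++ (List.replicate k (pd 3 false)).flatten ++ tau P (zn P G)) := by
  unfold code
  rw [strs_cons, str_conAtD, strs_AA]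
  unfold tau
  simp [List.append_assoc]

/-! ### free variables -/

theorem free_dig {x y : ℕ} {b : Bool} {φ : Fml} (h : (dig x b φ).Free y) :
    y = x ∨ (y ≠ x ∧ y ≠ 0 ∧ φ.Free y) := by
  cases b
  · simp only [dig, Bool.false_eq_true, if_false, Fm.Free] at h
    tauto
  · simp only [dig, if_true, Fm.Free] at h
    tauto

theorem free_digs {x y : ℕ} {φ : Fml} : ∀ {σ : List Bool}, (σ.foldr (dig x) φ).Free y →
    y = x ∨ φ.Free y
  | [], h => .inr h
  | b :: σ, h => by
    rw [List.foldr_cons] at h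
    rcases free_dig h with h | ⟨-, -, h⟩
    · exact .inl h
    · exact free_digs h

theorem free_dnum {x n y : ℕ} {φ : Fml} (h : (dnum x n φ).Free y) : y ≠ x ∧ φ.Free y := by
  obtain ⟨h1, h2 | h2⟩ := h
  · exact absurd h2 h1
  · rcases free_digs h2 with h3 | h3
    · exact absurd h3 h1
    · exact ⟨h1, h3⟩

theorem arith_dig {x : ℕ} {b : Bool} {φ : Fml} (h : Arith φ) : Arith (dig x b φ) := by
  cases b <;> simp [dig, Arith, h]

theorem arith_digs {x : ℕ} {φ : Fml} (h : Arith φ) : ∀ σ : List Bool,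
    Arith (σ.foldr (dig x) φ)
  | [] => h
  | _ :: σ => arith_dig (arith_digs h σ)

theorem arith_dnum {x n : ℕ} {φ : Fml} (h : Arith φ) : Arith (dnum x n φ) :=
  ⟨trivial, arith_digs h _⟩

theorem free_Xi {P : Fml} (hP : ∀ x, P.Free x → x = 2 ∨ x = 3 ∨ x = 4) {x : ℕ}
    (h : (Xi P).Free x) : x = 2 ∨ x = 3 := by
  obtain ⟨h1, h2⟩ := free_dnum h
  simp only [Fm.neg, Fm.Free, or_false] at h2
  have := hP x h2
  omega

/-! ### truth -/

variable {S : Str ℕ}

/-- the value after one more digit -/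
def dg (q : Q S) (b : Bool) (a : S.M) : S.M := if b then q.s (q.s (q.a a a)) else q.s (q.a a a)

/-- the value after the digits `σ` -/
def dgs (q : Q S) (σ : List Bool) (a : S.M) : S.M := σ.foldl (fun a b => dg q b a) a

theorem dgs_nil (q : Q S) (a : S.M) : dgs q [] a = a := rfl

theorem dgs_cons (q : Q S) (b : Bool) (σ : List Bool) (a : S.M) :
    dgs q (b :: σ) a = dgs q σ (dg q b a) := rfl

theorem dgs_snoc (q : Q S) (b : Bool) (σ : List Bool) (a : S.M) :
    dgs q (σ ++ [b]) a = dg q b (dgs q σ a) := by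
  unfold dgs
  rw [List.foldl_append]
  rfl

theorem dg_nm (q : Q S) (b : Bool) (n : ℕ) :
    dg q b (q.nm n) = q.nm (2 * n + if b then 2 else 1) := by
  unfold dg
  rw [q.nm_add, ← two_mul]
  cases b <;> rfl

theorem dgs_nm (q : Q S) (σ : List Bool) (n : ℕ) :
    dgs q σ (q.nm n) = q.nm (num (digits n ++ σ)) := by
  induction σ using List.reverseRecOn with
  | nil => rw [dgs_nil, List.append_nil, num_digits]
  | append_singleton σ b ih =>
    rw [dgs_snoc, ih, dg_nm, ← List.append_assoc, num_snoc]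

theorem dgs_zero (q : Q S) (n : ℕ) : dgs q (digits n) (q.nm 0) = q.nm n := by
  rw [dgs_nm, digits_zero, List.nil_append, num_digits]

theorem sat_dig (q : Q S) {φ : Fml} {x : ℕ} (hx : 2 ≤ x) (h0 : ¬ φ.Free 0) (h1 : ¬ φ.Free 1)
    (b : Bool) (v : ℕ → S.M) : Fm.Sat S (dig x b φ) v ↔ Fm.Sat S φ (upd v x (dg q b (v x))) := by
  cases b
  · simp only [dig, Bool.false_eq_true, if_false, Fm.sat_all, Fm.sat_imp, Fm.sat_add,
      Fm.sat_succ, q.add_iff, q.succ_iff, upd_same, upd_ne _ _ (show x ≠ 0 by omega),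
      upd_ne _ _ (show 0 ≠ x by omega), forall_eq]
    refine sat_cong fun y hy => ?_
    by_cases hyx : y = x
    · rw [hyx, upd_same, upd_same]; rfl
    · have hy0 : y ≠ 0 := fun e => h0 (e ▸ hy)
      rw [upd_ne _ _ hyx, upd_ne _ _ hyx, upd_ne _ _ hy0]
  · simp only [dig, if_true, Fm.sat_all, Fm.sat_imp, Fm.sat_add,
      Fm.sat_succ, q.add_iff, q.succ_iff, upd_same, upd_ne _ _ (show x ≠ 0 by omega),
      upd_ne _ _ (show 0 ≠ x by omega), upd_ne _ _ (show 1 ≠ x by omega),
      upd_ne _ _ (show 0 ≠ 1 by omega), forall_eq]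
    refine sat_cong fun y hy => ?_
    by_cases hyx : y = x
    · rw [hyx, upd_same, upd_same]; rfl
    · have hy0 : y ≠ 0 := fun e => h0 (e ▸ hy)
      have hy1 : y ≠ 1 := fun e => h1 (e ▸ hy)
      rw [upd_ne _ _ hyx, upd_ne _ _ hyx, upd_ne _ _ hy1, upd_ne _ _ hy0]

theorem sat_digs (q : Q S) {φ : Fml} {x : ℕ} (hx : 2 ≤ x) (h0 : ¬ φ.Free 0)
    (h1 : ¬ φ.Free 1) : ∀ (σ : List Bool) (v : ℕ → S.M),
    Fm.Sat S (σ.foldr (dig x) φ) v ↔ Fm.Sat S φ (upd v x (dgs q σ (v x)))
  | [], v => by rw [List.foldr_nil, dgs_nil, upd_self]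
  | b :: σ, v => by
    rw [List.foldr_cons, sat_dig q hx (fun h => ?_) (fun h => ?_), sat_digs q hx h0 h1 σ,
      upd_same, upd_upd, dgs_cons]
    · rcases free_digs h with h | h
      · omega
      · exact h0 h
    · rcases free_digs h with h | h
      · omega
      · exact h1 h

theorem sat_dnum (q : Q S) {φ : Fml} {x : ℕ} (hx : 2 ≤ x) (h0 : ¬ φ.Free 0)
    (h1 : ¬ φ.Free 1) (n : ℕ) (v : ℕ → S.M) :
    Fm.Sat S (dnum x n φ) v ↔ Fm.Sat S φ (upd v x (q.nm n)) := by
  simp only [dnum, Fm.sat_all, Fm.sat_imp, Fm.sat_zero, q.zero_iff, upd_same, forall_eq]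
  rw [sat_digs q hx h0 h1, upd_same, upd_upd]
  have e : q.o = q.nm 0 := rfl
  rw [e, dgs_zero]

end Pool.Agent.J6H58.MC
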