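import Pool.Agent.J6H58.MC.Ins

/-!
# Short proofs: the derivation
-/

set_option autoImplicit false

namespace Pool.Agent.J6H58.MC

open Pool.Agent.TH672 (Fm varStr LogK ReplK Sw num digits)
open Pool.Agent.TH672.Form (ren)
open Pool.Agent.TH636.BC (Fml Step IsProof str strs Proves lt col robinson)
open Pool.Agent.J6H49.BC (sz sz_bot sz_eq sz_zero sz_succ sz_op sz_imp sz_all sz_pos imps imps_nil
  imps_cons imps_append len_varStr WB XX Wn dn chain)
open Pool.Agent.TH197.J1545 (num_snoc num_app digits_num)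

variable {p : Pr} {Δ Δ' : List Fml} {N N' N'' N3 V A n m M : ℕ} {φ ψ : Fml}

/-! ### the chain -/

theorem chain_succ (n : ℕ) : chain (n + 1) = chain n ++ [Fm.succ (dn n) (dn (n + 1))] := by
  simp [chain, List.range_succ]

theorem zero_mem_chain (n : ℕ) : Fm.zero (dn 0) ∈ chain n := by simp [chain]

theorem succ_mem_chain {i n : ℕ} (h : i < n) : Fm.succ (dn i) (dn (i + 1)) ∈ chain n := by
  simp only [chain, List.mem_cons, List.mem_map, List.mem_range]
  exact .inr ⟨i, h, rfl⟩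

theorem mem_chain {n : ℕ} {g : Fml} (h : g ∈ chain n) :
    g = Fm.zero (dn 0) ∨ ∃ i < n, g = Fm.succ (dn i) (dn (i + 1)) := by
  simp only [chain, List.mem_cons, List.mem_map, List.mem_range] at h
  rcases h with h | ⟨i, hi, h⟩
  · exact .inl h
  · exact .inr ⟨i, hi, h.symm⟩

theorem chain_sub {m n : ℕ} (h : m ≤ n) : ∀ g ∈ chain m, g ∈ chain n := by
  intro g hg
  rcases mem_chain hg with rfl | ⟨i, hi, rfl⟩
  · exact zero_mem_chain n
  · exact succ_mem_chain (by omega)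

theorem chain_free {n x : ℕ} (hx : x < 40) : ∀ g ∈ chain n, ¬ g.Free x := by
  intro g hg
  rcases mem_chain hg with rfl | ⟨i, hi, rfl⟩ <;> simp only [Fm.Free, dn] <;> omega

theorem chain_free' {n : ℕ} : ∀ g ∈ chain n, ¬ g.Free (dn (n + 1)) := by
  intro g hg
  rcases mem_chain hg with rfl | ⟨i, hi, rfl⟩ <;> simp only [Fm.Free, dn] <;> omega

theorem chain_len (n : ℕ) : (chain n).length = n + 1 := by simp [chain]

theorem chain_sz {n : ℕ} : ∀ g ∈ chain n, sz g ≤ 12 * n + 100 := by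
  intro g hg
  rcases mem_chain hg with rfl | ⟨i, hi, rfl⟩ <;> simp only [sz_zero, sz_succ, dn] <;> omega

/-! ### the numbers `r = q + 2 a + 1` -/

/-- the numbers up to `M` are available in the context -/
structure Hc (p : Pr) (Δ : List Fml) (V A M : ℕ) : Prop where
  av : Av p V A
  cx : Cx p Δ
  sub : ∀ g ∈ chain M, g ∈ Δ
  V_le : 6 * M + 100 ≤ V

theorem dn_ge (i : ℕ) : 40 ≤ dn i := by unfold dn; omega

theorem Hc.dn_le (h : Hc p Δ V A M) {i : ℕ} (hi : i ≤ M) : dn i ≤ V := by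
  have := h.V_le
  unfold dn
  omega

theorem Hc.zero (h : Hc p Δ V A M) : Dc p Δ p.c (.zero (dn 0)) :=
  .hyp h.cx (h.sub _ (zero_mem_chain M))

theorem Hc.succ (h : Hc p Δ V A M) {i : ℕ} (hi : i + 1 ≤ M) :
    Dc p Δ p.c (.succ (dn i) (dn (i + 1))) :=
  .hyp h.cx (h.sub _ (succ_mem_chain hi))

theorem Hc.rf0 (h : Hc p Δ V A M) : ∀ a : ℕ, 2 * a + 1 ≤ M →
    Dc p Δ ((a + 1) * (20 * p.c)) (Rf (dn a) (dn 0) (dn (2 * a + 1)))
  | 0, ha => by
    have h1 := h.av.x1 (dn_ge 0) (dn_ge 0) (dn_ge 1) (h.dn_le (by omega)) (h.dn_le (by omega))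
      (h.dn_le (by omega)) h.zero h.zero (h.succ (i := 0) (by omega))
    exact h1.up (by omega)
  | a + 1, ha => by
    have h0 := Hc.rf0 h a (by omega)
    have h1 := h.av.x2 (dn_ge _) (dn_ge _) (dn_ge _) (dn_ge _) (dn_ge _) (dn_ge _)
      (h.dn_le (by omega)) (h.dn_le (by omega)) (h.dn_le (by omega)) (h.dn_le (by omega))
      (h.dn_le (by omega)) (h.dn_le (i := 2 * a + 1 + 1 + 1) (by omega)) h0
      (h.succ (i := a) (by omega)) (h.succ (i := 2 * a + 1) (by omega))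
      (h.succ (i := 2 * a + 1 + 1) (by omega))
    rw [Nat.add_mul (a + 1) 1, Nat.one_mul]
    exact h1.up (by omega)

theorem Hc.rf (h : Hc p Δ V A M) (a : ℕ) : ∀ q : ℕ, q + 2 * a + 1 ≤ M →
    Dc p Δ ((a + 1) * (20 * p.c) + q * (20 * p.c)) (Rf (dn a) (dn q) (dn (q + 2 * a + 1)))
  | 0, ha => by
    have := h.rf0 a (by omega)
    simpa using this
  | q + 1, ha => by
    have h0 := Hc.rf h a q (by omega)
    have h1 := h.av.x3 (dn_ge _) (dn_ge _) (dn_ge _) (dn_ge _) (dn_ge _)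
      (h.dn_le (by omega)) (h.dn_le (by omega)) (h.dn_le (by omega)) (h.dn_le (by omega))
      (h.dn_le (i := q + 2 * a + 1 + 1) (by omega)) h0
      (h.succ (i := q) (by omega)) (h.succ (i := q + 2 * a + 1) (by omega))
    have e : q + 1 + 2 * a + 1 = q + 2 * a + 1 + 1 := by omega
    rw [e, Nat.add_mul q 1, Nat.one_mul]
    exact h1.up (by omega)

theorem Hc.rf' (h : Hc p Δ V A M) {a q r : ℕ} (hr : q + 2 * a + 1 = r) (hM : r ≤ M) :
    Dc p Δ ((M + 1) * (40 * p.c)) (Rf (dn a) (dn q) (dn r)) := by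
  subst hr
  refine (h.rf a q hM).up ?_
  have h1 : (a + 1) * (20 * p.c) ≤ (M + 1) * (20 * p.c) := Nat.mul_le_mul_right _ (by omega)
  have h2 : q * (20 * p.c) ≤ (M + 1) * (20 * p.c) := Nat.mul_le_mul_right _ (by omega)
  have h3 : (M + 1) * (40 * p.c) = (M + 1) * (20 * p.c) + (M + 1) * (20 * p.c) := by ring
  omega

/-! ### the claims on `E` -/

/-- the remaining digits -/
def Rem (σ : List Bool) (X : Fml) (j : ℕ) : Fml :=
  ((List.replicate j (pd 3 false)).flatten ++ σ).foldr (dig 2) X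

theorem Rem_succ (σ : List Bool) (X : Fml) (j : ℕ) :
    Rem σ X (j + 1) = (pd 3 false).foldr (dig 2) (Rem σ X j) := by
  unfold Rem
  rw [List.replicate_succ, List.flatten_cons, List.append_assoc, List.foldr_append]

theorem Rem_zero (σ : List Bool) (X : Fml) : Rem σ X 0 = σ.foldr (dig 2) X := rfl

theorem pd_len : (pd 3 false).length = 43 := rfl

theorem pz_len : (pz 3).length = 20 := rfl

theorem sz_Rem (σ : List Bool) (X : Fml) (j : ℕ) :
    sz (Rem σ X j) ≤ sz X + σ.length * 57 + j * 2451 := by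
  have h := sz_digs 2 X ((List.replicate j (pd 3 false)).flatten ++ σ)
  have e : ((List.replicate j (pd 3 false)).flatten ++ σ).length = j * 43 + σ.length := by
    rw [List.length_append, List.length_flatten, List.map_replicate, List.sum_replicate, pd_len]
    rfl
  rw [e] at h
  unfold Rem
  have e2 : (j * 43 + σ.length) * (4 * 2 + 49) = σ.length * 57 + j * 2451 := by ring
  omega

variable {σ : List Bool} {X : Fml}

/-- the sizes of the remaining formulas are small -/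
structure Hs (p : Pr) (Δ : List Fml) (V A M : ℕ) (σ : List Bool) (X : Fml) (n : ℕ) : Prop
    extends Hc p Δ V A M where
  nf : ∀ g ∈ Δ, ¬ g.Free 0 ∧ ¬ g.Free 1 ∧ ¬ g.Free 2
  len : Δ.length + 3 ≤ p.l
  le : 2 * (sz X + σ.length * 57 + n * 2451) + 8 * V + 20000 ≤ p.s

theorem Hs.rem (h : Hs p Δ V A M σ X n) {j : ℕ} (hj : j ≤ n) :
    2 * sz (Rem σ X j) + 8 * V + 20000 ≤ p.s := by
  have h1 := sz_Rem σ X j
  have h2 := h.le
  have h3 : j * 2451 ≤ n * 2451 := Nat.mul_le_mul_right _ hj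
  omega

theorem sz_Ew (a b c : ℕ) : sz (Ew a b c) = a + b + c + c + 16 := by
  unfold Ew
  rw [sz_op]
  omega

theorem Hs.nf2 (h : Hs p Δ V A M σ X n) : ∀ g ∈ Δ, ¬ g.Free 2 := fun g hg => (h.nf g hg).2.2

/-- the bound can be increased -/
theorem Hs.down (h : Hs p Δ V A M σ X n) {k q j : ℕ} (hk : k ≤ M) (hj : j ≤ n)
    (hq : q + 1 ≤ M) (h1 : Dc p Δ N (.all 2 (.imp (Ew (dn k) (dn q) 2) (Rem σ X j)))) :
    Dc p Δ (N + 16 * p.c) (.all 2 (.imp (Ew (dn k) (dn (q + 1)) 2) (Rem σ X j))) := by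
  have e0 := h.rem hj
  have e1 := h.dn_le hk
  have e2 := h.dn_le (i := q + 1) hq
  have e3 := h.len
  have k1 := h.av.x8 (dn_ge k) (dn_ge (q + 1)) (dn_ge q) e1 e2 (h.dn_le (by omega))
    (h.succ hq)
  have k2 := k1.trA h1 h.nf2 (by omega) (by rw [sz_Ew]; omega)
  exact k2.up (by omega)

theorem Hs.downs (h : Hs p Δ V A M σ X n) {k q j : ℕ} (hk : k ≤ M) (hj : j ≤ n)
    (h1 : Dc p Δ N (.all 2 (.imp (Ew (dn k) (dn q) 2) (Rem σ X j)))) : ∀ i : ℕ, q + i ≤ M →
    Dc p Δ (N + i * (16 * p.c)) (.all 2 (.imp (Ew (dn k) (dn (q + i)) 2) (Rem σ X j)))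
  | 0, _ => by simpa using h1
  | i + 1, hi => by
    have k1 := h.down (q := q + i) hk hj (by omega) (h.downs hk hj h1 i (by omega))
    rw [Nat.add_mul i 1, Nat.one_mul]
    have e : q + (i + 1) = q + i + 1 := by omega
    rw [e]
    exact k1.up (by omega)

/-- one digit of the numeral of `2 ^ (n + 1)` more -/
theorem Hs.up1 (h : Hs p Δ V A M σ X n) {k j : ℕ} (hk : (k + 2) ^ 2 ≤ M) (hj : j + 1 ≤ n)
    (h1 : Dc p Δ N (.all 2 (.imp (Ew (dn (k + 1)) (dn ((k + 2) ^ 2)) 2) (Rem σ X j)))) :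
    Dc p Δ (N + (M + 1) * (1400 * p.c))
      (.all 2 (.imp (Ew (dn k) (dn ((k + 1) ^ 2)) 2) (Rem σ X (j + 1)))) := by
  have e0 := h.rem (j := j) (by omega)
  have hkM : k + 2 ≤ M := by nlinarith
  have hkM' : (k + 1) ^ 2 ≤ M := by nlinarith
  have e1 := h.dn_le (i := k) (by omega)
  have e2 := h.dn_le (i := k + 1) (by omega)
  have e3 := h.dn_le hk
  have e4 := h.dn_le hkM'
  have e5 := h.len
  have kr := h.rf' (a := k + 1) (q := (k + 1) ^ 2) (r := (k + 2) ^ 2) (by ring) hk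
  have k1 := h.av.x7 (dn_ge k) (dn_ge ((k + 1) ^ 2)) (dn_ge (k + 1)) (dn_ge ((k + 2) ^ 2)) e1 e4
    e2 e3 (h.succ (by omega)) kr
  have k2 := k1.block (le_refl 2) h1 h.nf e5 (by
    rw [sz_Ew, sz_Ew, pd_len]
    omega)
  rw [Rem_succ]
  refine k2.up ?_
  rw [pd_len]
  have e6 : (M + 1) * (1400 * p.c) = (M + 1) * (40 * p.c) + (M + 1) * (1360 * p.c) := by ring
  have e7 : 1 * (1360 * p.c) ≤ (M + 1) * (1360 * p.c) := Nat.mul_le_mul_right _ (by omega)
  omega

theorem Hs.ups (h : Hs p Δ V A M σ X n) (hM : (n + 1) ^ 2 ≤ M)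
    (h1 : Dc p Δ N (.all 2 (.imp (Ew (dn n) (dn ((n + 1) ^ 2)) 2) (Rem σ X 0)))) :
    ∀ j : ℕ, j ≤ n → Dc p Δ (N + j * ((M + 1) * (1400 * p.c)))
      (.all 2 (.imp (Ew (dn (n - j)) (dn ((n - j + 1) ^ 2)) 2) (Rem σ X j)))
  | 0, _ => by simpa using h1
  | j + 1, hj => by
    obtain ⟨k, hk⟩ : ∃ k, k = n - (j + 1) := ⟨_, rfl⟩
    have e1 : n - j = k + 1 := by omega
    have k0 := h.ups hM h1 j (by omega)
    rw [e1] at k0
    have e2 : k + 1 + 1 = k + 2 := rfl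
    rw [e2] at k0
    rw [← hk, Nat.add_mul j 1, Nat.one_mul]
    have k1 := h.up1 (k := k) (j := j) (by
      have : k + 2 ≤ n + 1 := by omega
      exact (Nat.pow_le_pow_left this 2).trans hM) hj k0
    exact k1.up (by omega)

/-- the string of the numeral -/
def Str2 (σ : List Bool) (n : ℕ) : List Bool :=
  pz 3 ++ (List.replicate n (pd 3 false)).flatten ++ σ

theorem dnum_Str2 (σ : List Bool) (X : Fml) (n : ℕ) :
    dnum 2 (num (Str2 σ n)) X =
      .all 2 (.imp (.zero 2) ((pz 3).foldr (dig 2) (Rem σ X n))) := by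
  unfold dnum Str2 Rem
  rw [digits_num, List.append_assoc, List.foldr_append]

theorem Hs.num2 (h : Hs p Δ V A M σ X n) (hM : (n + 1) ^ 2 ≤ M)
    (h1 : Dc p Δ N (.all 2 (.imp (Ew (dn n) (dn ((n + 1) ^ 2)) 2) (Rem σ X 0)))) :
    Dc p Δ (N + (M + 1) * ((M + 1) * (2100 * p.c))) (dnum 2 (num (Str2 σ n)) X) := by
  have hnM : n + 1 ≤ M := by nlinarith
  have k0 := h.ups hM h1 n le_rfl
  rw [Nat.sub_self] at k0
  have e0 := h.rem (j := n) le_rfl
  have e1 := h.dn_le (i := 0) (by omega)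
  have e2 := h.dn_le (i := 1) (by omega)
  have e5 := h.len
  have k1 := h.av.x6 (dn_ge 0) (dn_ge 1) e1 e2 h.zero (h.succ (i := 0) (by omega))
  have e3 : (0 + 1) ^ 2 = 1 := rfl
  rw [e3] at k0
  have k2 := k1.block (le_refl 2) k0 h.nf e5 (by
    rw [sz_Ew, sz_zero, pz_len]
    omega)
  rw [dnum_Str2]
  refine k2.up ?_
  rw [pz_len]
  have e6 : (M + 1) * ((M + 1) * (2100 * p.c)) =
      (M + 1) * ((M + 1) * (1400 * p.c)) + (M + 1) * ((M + 1) * (700 * p.c)) := by ring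
  have e7 : n * ((M + 1) * (1400 * p.c)) ≤ (M + 1) * ((M + 1) * (1400 * p.c)) :=
    Nat.mul_le_mul_right _ (by omega)
  have e8 : 1 * (700 * p.c) ≤ (M + 1) * (700 * p.c) := Nat.mul_le_mul_right _ (by omega)
  have e9 : 1 * ((M + 1) * (700 * p.c)) ≤ (M + 1) * ((M + 1) * (700 * p.c)) :=
    Nat.mul_le_mul_right _ (by omega)
  omega

end Pool.Agent.J6H58.MC
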