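import Pool.Agent.J6H58.MC.Cla

/-!
# Short proofs: the numeral of `m` and the elimination of the chain
-/

set_option autoImplicit false

namespace Pool.Agent.J6H58.MC

open Pool.Agent.TH672 (Fm varStr LogK ReplK Sw num digits)
open Pool.Agent.TH672.Form (ren)
open Pool.Agent.TH636.BC (Fml Step IsProof str strs Proves lt col robinson)
open Pool.Agent.J6H49.BC (sz sz_bot sz_eq sz_zero sz_succ sz_op sz_imp sz_all sz_pos imps imps_nil
  imps_cons imps_append len_varStr WB XX Wn dn chain)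
open Pool.Agent.TH197.J1545 (num_snoc num_app digits_num)

variable {p : Pr} {Δ Δ' : List Fml} {N N' N'' N3 V A n m M : ℕ} {φ ψ : Fml}
  {σ : List Bool} {X Z : Fml}

theorem num_le_app (u w : List Bool) : num u ≤ num (u ++ w) := by
  rw [num_app]
  have : 1 ≤ 2 ^ w.length := Nat.one_le_two_pow
  nlinarith

theorem len_le_num (w : List Bool) : w.length ≤ num w := by
  induction w using List.reverseRecOn with
  | nil => exact Nat.zero_le _
  | append_singleton w b ih =>
    rw [num_snoc, List.length_append, List.length_singleton]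
    split_ifs <;> omega

/-- one digit of `m` -/
theorem Hc.dg3 (h : Hc p Δ V A M) (b : Bool) (v : ℕ) (hv : (2 * v + if b then 2 else 1) ≤ M) :
    Dc p Δ ((M + 1) * (60 * p.c)) (.all 3 (.imp (.eq 3 (dn v))
      (dig 3 b (.eq 3 (dn (2 * v + if b then 2 else 1)))))) := by
  have e7 : 1 * (20 * p.c) ≤ (M + 1) * (20 * p.c) := Nat.mul_le_mul_right _ (by omega)
  have e8 : (M + 1) * (60 * p.c) = (M + 1) * (40 * p.c) + (M + 1) * (20 * p.c) := by ring
  cases b
  · simp only [Bool.false_eq_true, if_false] at hv ⊢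
    have k0 := h.rf' (a := v) (q := 0) (r := 2 * v + 1) (by omega) hv
    have k1 := h.av.x4 (dn_ge 0) (dn_ge v) (dn_ge (2 * v + 1)) (h.dn_le (by omega))
      (h.dn_le (by omega)) (h.dn_le hv) h.zero k0
    exact k1.up (by omega)
  · simp only [if_true] at hv ⊢
    have k0 := h.rf' (a := v) (q := 0) (r := 2 * v + 1) (by omega) (by omega)
    have k1 := h.av.x5 (dn_ge 0) (dn_ge v) (dn_ge (2 * v + 1)) (dn_ge (2 * v + 2))
      (h.dn_le (by omega)) (h.dn_le (by omega)) (h.dn_le (by omega)) (h.dn_le hv) h.zero k0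
      (h.succ (i := 2 * v + 1) (by omega))
    exact k1.up (by omega)

/-- the sizes are small -/
structure Ht (p : Pr) (Δ : List Fml) (V A M : ℕ) (Z : Fml) : Prop extends Hc p Δ V A M where
  nf : ∀ g ∈ Δ, ¬ g.Free 0 ∧ ¬ g.Free 1 ∧ ¬ g.Free 3
  len : Δ.length + 3 ≤ p.l
  le : 2 * (sz Z + M * 61) + 8 * V + 20000 ≤ p.s

theorem Ht.digs (h : Ht p Δ V A M Z) (hm : m ≤ M)
    (h1 : Dc p Δ N (.all 3 (.imp (.eq 3 (dn m)) Z))) :
    ∀ w u : List Bool, u ++ w = digits m →
      Dc p Δ (N + w.length * ((M + 1) * (100 * p.c)))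
        (.all 3 (.imp (.eq 3 (dn (num u))) (w.foldr (dig 3) Z)))
  | [], u, hu => by
    rw [List.append_nil] at hu
    rw [hu, num_digits]
    simpa using h1
  | b :: w, u, hu => by
    have hu' : (u ++ [b]) ++ w = digits m := by rw [← hu]; simp
    have k0 := h.digs hm h1 w (u ++ [b]) hu'
    have e0 : num ((u ++ [b]) ++ w) = m := by rw [hu', num_digits]
    have e1 : num (u ++ [b]) ≤ m := by
      have := num_le_app (u ++ [b]) w
      omega
    have e2 : w.length ≤ m := by
      have := len_le_num ((u ++ [b]) ++ w)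
      rw [e0, List.length_append] at this
      omega
    rw [num_snoc] at k0 e1
    have e3 : num u ≤ M := by omega
    have k1 := h.dg3 b (num u) (by omega)
    have d1 := h.dn_le e3
    have d2 := h.dn_le (i := 2 * num u + if b then 2 else 1) (by omega)
    have e4 := sz_digs 3 Z w
    have e5 : w.length * (4 * 3 + 49) ≤ M * 61 := Nat.mul_le_mul (by omega) (by omega)
    have e6 := h.le
    have e9 := h.len
    have k2 := Dc.block (σ := [b]) (x := 3) (by omega) k1 k0 h.nf e9 (by
      rw [sz_eq, sz_eq, List.length_singleton]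
      omega)
    refine Dc.up k2 ?_
    simp only [List.length_cons, List.length_nil]
    rw [Nat.add_mul w.length 1, Nat.one_mul]
    have e7 : 1 * (40 * p.c) ≤ (M + 1) * (40 * p.c) := Nat.mul_le_mul_right _ (by omega)
    have e8 : (M + 1) * (100 * p.c) = (M + 1) * (60 * p.c) + (M + 1) * (40 * p.c) := by ring
    omega

theorem Ht.num3 (h : Ht p Δ V A M Z) (hm : m ≤ M)
    (h1 : Dc p Δ N (.all 3 (.imp (.eq 3 (dn m)) Z))) :
    Dc p Δ (N + (M + 1) * ((M + 1) * (120 * p.c))) (dnum 3 m Z) := by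
  have k0 := h.digs hm h1 (digits m) [] rfl
  have en : num [] = 0 := rfl
  rw [en] at k0
  have e2 : (digits m).length ≤ m := by
    have := len_le_num (digits m)
    rwa [num_digits] at this
  have e4 := sz_digs 3 Z (digits m)
  have e5 : (digits m).length * (4 * 3 + 49) ≤ M * 61 := Nat.mul_le_mul (by omega) (by omega)
  have e6 := h.le
  have e9 := h.len
  have d0 := h.dn_le (i := 0) (by omega)
  have c1 : Cx p (Δ ++ [.zero 3]) := h.cx.snoc (by omega) (by rw [sz_zero]; omega)
  have k1 := h.av.uz (dn_ge 0) d0 (.last c1) (h.zero.sub (fun g hg => by simp [hg]) c1)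
  have k2 := k1.impI (by rw [sz_imp, sz_zero, sz_eq]; omega)
  have k3 := k2.allI (x := 3) (fun g hg => (h.nf g hg).2.2)
    (by rw [sz_all, sz_imp, sz_zero, sz_eq]; omega)
  have k4 := k3.trA k0 (fun g hg => (h.nf g hg).2.2) (by omega) (by rw [sz_zero]; omega)
  refine Dc.up k4 ?_
  have e7 : (digits m).length * ((M + 1) * (100 * p.c)) ≤ (M + 1) * ((M + 1) * (100 * p.c)) :=
    Nat.mul_le_mul_right _ (by omega)
  have e8 : 1 * (20 * p.c) ≤ (M + 1) * (20 * p.c) := Nat.mul_le_mul_right _ (by omega)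
  have e10 : 1 * ((M + 1) * (20 * p.c)) ≤ (M + 1) * ((M + 1) * (20 * p.c)) :=
    Nat.mul_le_mul_right _ (by omega)
  have e11 : (M + 1) * ((M + 1) * (120 * p.c)) =
      (M + 1) * ((M + 1) * (100 * p.c)) + (M + 1) * ((M + 1) * (20 * p.c)) := by ring
  omega

/-! ### the elimination of the chain -/

theorem free_ren {x y z : ℕ} {φ : Fml} (h : φ.Closed) : φ.subst x y = φ ∧ φ.FreeFor y x :=
  ⟨subst_id (h x), freeFor_of_not_free (h x)⟩

/-- the elimination of a variable -/
theorem elim_aux {F S : Fml} {a x : ℕ} (hΔ : Cx p Δ) (hF : F.Closed)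
    (h1 : Dc p (Δ ++ [S]) N F) (ha : ∀ g ∈ Δ, ¬ g.Free a) (hx : ∀ g ∈ Δ, ¬ g.Free x)
    (hS : S.FreeFor x a) (hl : Δ.length + 3 ≤ p.l)
    (hs : sz S + sz (S.subst a x) + sz F + a + x + 100 ≤ p.s)
    (h2 : Dc p Δ N' (.ex x (S.subst a x))) : Dc p Δ (N + N' + 16 * p.c) F := by
  have k1 := h1.impI (by rw [sz_imp]; omega)
  have k2 := k1.allI ha (by rw [sz_all, sz_imp]; omega)
  have e1 : (S.imp F).subst a x = (S.subst a x).imp F := by
    rw [sb_imp, subst_id (hF a)]
  have k3 := k2.allE x ⟨hS, freeFor_of_not_free (hF a)⟩ (by rw [e1, sz_imp]; omega)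
  rw [e1] at k3
  have c1 : Cx p (Δ ++ [F.neg]) := hΔ.snoc (by omega) (by
    simp only [Fm.neg, sz_imp, sz_bot]; omega)
  have c2 : Cx p (Δ ++ [F.neg] ++ [S.subst a x]) := c1.snoc
    (by rw [List.length_append, List.length_singleton]; omega) (by omega)
  have k4 := (k3.sub (fun g hg => by simp [hg]) c2).mp (.last c2)
  have k5 : Dc p _ _ (F.imp .bot) := Dc.hyp c2 (φ := F.neg) (by simp)
  have k6 := (k5.mp k4).impI (by simp only [sz_imp, sz_bot]; omega)
  have k7 := k6.allI (x := x) (fun g hg => by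
    rcases List.mem_append.1 hg with hg | hg
    · exact hx g hg
    · rw [List.mem_singleton] at hg
      rw [hg]
      simp only [Fm.neg, Fm.Free, or_false]
      exact hF x) (by simp only [sz_all, sz_imp, sz_bot]; omega)
  have k8 : Dc p (Δ ++ [F.neg]) _ ((Fm.all x (Fm.neg (S.subst a x))).imp .bot) :=
    h2.sub (fun g hg => by simp [hg]) c1
  have k9 := (k8.mp k7).impI (by simp only [Fm.neg, sz_imp, sz_bot]; omega)
  have k10 : Dc p Δ _ F := Dc.dn (φ := F) k9
  exact k10.up (by omega)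

/-- one number less -/
theorem Av.elim1 (h : Av p V A) {F : Fml} (hF : F.Closed) {j : ℕ}
    (h1 : Dc p (chain (j + 1)) N F) (hl : j + 5 ≤ p.l) (hV : 6 * j + 100 ≤ V)
    (hs : J6H49.BC.sz F + 8 * V + 1000 ≤ p.s) : Dc p (chain j) (N + 30 * p.c) F := by
  rw [chain_succ] at h1
  have c0 : Cx p (chain j) := ⟨by rw [chain_len]; omega, fun g hg => by
    have := chain_sz g hg
    omega⟩
  have k1 := h.get' (φ := .all 0 (.ex 1 (.succ 0 1))) c0 (by simp [WF, WB, robinson])
  have k2 := h.al (y := dn j) k1 (by omega) (by unfold dn; omega) (by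
    have := dn_ge j
    exact ⟨.inr (.inr ⟨by omega, trivial, trivial⟩), trivial⟩)
  have d1 := dn_ge j
  have e : (Fm.ex 1 (.succ 0 1) : Fml).subst 0 (dn j) = .ex 1 (.succ (dn j) 1) := by
    simp only [Fm.ex]
    simp (disch := omega) only [sb_neg, sb_all, sb_succ, ren_ne, ren_same]
  rw [e] at k2
  have e2 : (Fm.succ (dn j) (dn (j + 1)) : Fml).subst (dn (j + 1)) 1 = .succ (dn j) 1 := by
    rw [sb_succ, ren_same, ren_ne 1 (by unfold dn; omega)]
  have := p.one_le
  have k3 : Dc p (chain j) (1 + p.c + p.c)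
      (.ex 1 ((Fm.succ (dn j) (dn (j + 1)) : Fml).subst (dn (j + 1)) 1)) := by
    rw [e2]
    exact k2.1
  have k4 := elim_aux (S := .succ (dn j) (dn (j + 1))) (a := dn (j + 1)) (x := 1) c0 hF h1
    chain_free' (chain_free (by omega)) trivial (by rw [chain_len]; omega) (by
      rw [e2, sz_succ, sz_succ]
      unfold dn
      omega) k3
  exact k4.up (by omega)

theorem Av.elims (h : Av p V A) {F : Fml} (hF : F.Closed) : ∀ {j N : ℕ},
    Dc p (chain j) N F → j + 5 ≤ p.l → 6 * j + 100 ≤ V →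
      J6H49.BC.sz F + 8 * V + 1000 ≤ p.s → Dc p (chain 0) (N + j * (30 * p.c)) F
  | 0, N, h1, _, _, _ => by simpa using h1
  | j + 1, N, h1, hl, hV, hs => by
    have k1 := h.elim1 hF h1 (by omega) (by omega) hs
    have k2 := h.elims hF k1 (by omega) (by omega) hs
    rw [Nat.add_mul j 1, Nat.one_mul]
    exact k2.up (by omega)

theorem Av.elim (h : Av p V A) {F : Fml} (hF : F.Closed) {j : ℕ}
    (h1 : Dc p (chain j) N F) (hl : j + 5 ≤ p.l) (hV : 6 * j + 100 ≤ V)
    (hs : J6H49.BC.sz F + 8 * V + 1000 ≤ p.s) : Dw p.Γ p.L (N + (j + 1) * (30 * p.c)) F := by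
  have k0 := h.elims hF h1 hl hV hs
  have c0 : Cx p ([] : List Fml) := ⟨by simp, fun g hg => by simp at hg⟩
  have k1 := h.get' (φ := .ex 0 (.zero 0)) c0 (by simp [WF, WB, robinson])
  have e2 : (Fm.zero (dn 0) : Fml).subst (dn 0) 0 = .zero 0 := by
    rw [sb_zero, ren_same]
  have := p.one_le
  have k2 := elim_aux (S := .zero (dn 0)) (a := dn 0) (x := 0) c0 hF k0
    (fun g hg => by simp at hg) (fun g hg => by simp at hg) trivial
    (by simp only [List.length_nil]; omega)
    (by rw [e2, sz_zero, sz_zero]; unfold dn; omega) (by rw [e2]; exact k1.1)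
  have k3 := k2.dw
  rw [imps_nil] at k3
  refine k3.mono ?_
  rw [Nat.add_mul j 1, Nat.one_mul]
  omega

end Pool.Agent.J6H58.MC
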