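import Pool.Agent.J6H49.BC.Stm2

/-!
# Short proofs of the consistency of `A + Con_A (2 ^ n)`: the theory and the modules

Formulas, proofs and strings are those of `TH636/BC/Defs.lean`; the numerals are dyadic.
-/

set_option autoImplicit false

namespace Pool.Agent.J6H58.MC

open Pool.Agent.TH672 (Fm Str upd varStr num digits LogK ReplK Sw Pv)
open Pool.Agent.TH636.BC (Fml Step IsProof str strs Proves code robinson Arith PrRel lt col
  St Ok Agr Eqs AddS MulS SuccS Vlt)
open Pool.Agent.J6H49.BC (WB XX OpP Tru Wn)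

/-! ### Dyadic numerals -/

/-- The formula `φ (2 x + 1)` or `φ (2 x + 2)` (if `b` is `true`); the variables `0` and `1` are
used as auxiliary variables. -/
def dig (x : ℕ) (b : Bool) (φ : Fml) : Fml :=
  if b then
    .all 0 (.imp (.add x x 0) (.all 1 (.imp (.succ 0 1) (.all x (.imp (.succ 1 x) φ)))))
  else .all 0 (.imp (.add x x 0) (.all x (.imp (.succ 0 x) φ)))

/-- The formula `φ (n)` where the dyadic numeral of `n` is substituted for the variable `x`; in a
language without function symbols this means that the values `0`, `d₁`, `2 d₁ + d₂`, ... are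
computed by quantifiers. -/
def dnum (x n : ℕ) (φ : Fml) : Fml :=
  .all x (.imp (.zero x) ((digits n).foldr (dig x) φ))

/-! ### Formalized provability -/

/-- The arithmetical formula `P` with the free variables `2`, `3`, `4` numerates the relation
`PrRel` (`v₂` is the code of a list `Γ` of formulas, `v₄` is the code of a formula `φ`, and `φ` has
a proof from `Γ` of length at most `v₃`) in Robinson arithmetic. -/
structure Num (P : Fml) : Prop where
  arith : Arith P
  free : ∀ x, P.Free x → x = 2 ∨ x = 3 ∨ x = 4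
  pos : ∀ c m d, PrRel c m d → ∃ k, Proves robinson k (dnum 2 c (dnum 3 m (dnum 4 d P)))
  neg : ∀ c m d, ¬ PrRel c m d → ∃ k, Proves robinson k (dnum 2 c (dnum 3 m (dnum 4 d P.neg)))

/-- The formula `Con_Γ (x)`, where `x` is the variable `3`: there is no proof of `⊥` from `Γ` whose
length is at most `x`. -/
def conD (P : Fml) (Γ : List Fml) : Fml := dnum 2 (code Γ) (dnum 4 (code [Fm.bot]) P.neg)

/-- The sentence `Con_Γ (n)`. -/
def conAtD (P : Fml) (Γ : List Fml) (n : ℕ) : Fml := dnum 3 n (conD P Γ)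

/-- The theorem. -/
def MainT : Prop := ∀ P : Fml, Num P → ∃ (A : List Fml) (p : Polynomial ℕ) (C : ℕ),
  (∀ φ ∈ robinson, φ ∈ A) ∧ (∀ φ ∈ A, φ.Closed) ∧ (∀ m, ¬ Proves A m .bot) ∧
  (∀ n m : ℕ, m ≤ n ^ 2 → Proves A (p.eval n) (conAtD P (conAtD P A (2 ^ n) :: A) m)) ∧
  ∀ n : ℕ, (str (conAtD P A (2 ^ n))).length ≤ 100 * n + C

/-! ### Strings -/

/-- the string of `dnum x n φ` before the digits -/
def pz (x : ℕ) : List Bool :=
  [true, false, false, false] ++ varStr x ++ [false, true, true, true] ++ str (.zero x)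

/-- the string of a digit -/
def pd (x : ℕ) (b : Bool) : List Bool :=
  [true, false, false, false] ++ varStr 0 ++ [false, true, true, true] ++ str (.add x x 0) ++
  if b then
    [true, false, false, false] ++ varStr 1 ++ [false, true, true, true] ++ str (.succ 0 1) ++
    [true, false, false, false] ++ varStr x ++ [false, true, true, true] ++ str (.succ 1 x)
  else [true, false, false, false] ++ varStr x ++ [false, true, true, true] ++ str (.succ 0 x)

/-- the last part of a consistency statement -/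
def Xi (P : Fml) : Fml := dnum 4 (code [Fm.bot]) P.neg

/-- the string of the axiomatization -/
def sA (z : ℕ) : List Bool := pz 29 ++ (digits z).flatMap (pd 29) ++ digits z

/-- the end of the string of the axiomatization `A + Con_A (2 ^ (k + 1))` -/
def tau (P : Fml) (z : ℕ) : List Bool :=
  pd 3 true ++ pz 2 ++ (sA z).flatMap (pd 2) ++ str (Xi P) ++ sA z

/-- The arithmetical formula `G` with the free variables `2`, `3`, `4` numerates the relation
`v₃ = num (tau P v₂)` in Robinson arithmetic. -/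
structure NumG (P G : Fml) : Prop where
  arith : Arith G
  free : ∀ x, G.Free x → x = 2 ∨ x = 3 ∨ x = 4
  pos : ∀ z t d, t = num (tau P z) → ∃ k, Proves robinson k (dnum 2 z (dnum 3 t (dnum 4 d G)))
  neg : ∀ z t d, t ≠ num (tau P z) → ∃ k, Proves robinson k (dnum 2 z (dnum 3 t (dnum 4 d G.neg)))

/-! ### The additional symbols and axioms -/

/-- `r = q + 2 p + 1` -/
def Rrl (p q r : ℕ) : Prop := r = q + 2 * p + 1

/-- `w` is the number of the string of `Con_A (2 ^ (k + 1))` before the last digit, and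
`x ≤ (k + 1) ^ 2` -/
def Erl (k x w : ℕ) : Prop :=
  w = num (pz 3 ++ (List.replicate k (pd 3 false)).flatten) ∧ x ≤ (k + 1) ^ 2

/-- `w` is the number of the concatenation of the strings with the numbers `u` and `a` -/
def Krl (u a w : ℕ) : Prop := w = num (digits u ++ digits a)

def Rf (p q r : ℕ) : Fml := .op 6 p q r r
def Ew (k x w : ℕ) : Fml := .op 7 k x w w
def Kw (u a w : ℕ) : Fml := .op 8 u a w w

/-- The axioms on the additional symbols. -/
def EX : List Fml := [
  .all 15 (.all 17 (.all 19 (.imp (.zero 15) (.imp (.zero 17) (.imp (.succ 17 19)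
    (Rf 15 17 19)))))),
  .all 15 (.all 17 (.all 19 (.all 21 (.all 23 (.all 25 (.imp (Rf 15 17 19) (.imp (.succ 15 21)
    (.imp (.succ 19 23) (.imp (.succ 23 25) (Rf 21 17 25)))))))))),
  .all 15 (.all 17 (.all 19 (.all 21 (.all 23 (.imp (Rf 15 17 19) (.imp (.succ 17 21)
    (.imp (.succ 19 23) (Rf 15 21 23)))))))),
  .all 15 (.all 17 (.all 19 (.imp (.zero 15) (.imp (Rf 17 15 19) (.all 3 (.imp (.eq 3 17)
    (dig 3 false (.eq 3 19)))))))),
  .all 15 (.all 17 (.all 19 (.all 21 (.imp (.zero 15) (.imp (Rf 17 15 19) (.imp (.succ 19 21)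
    (.all 3 (.imp (.eq 3 17) (dig 3 true (.eq 3 21)))))))))),
  .all 15 (.all 17 (.imp (.zero 15) (.imp (.succ 15 17) (.all 2 (.imp (.zero 2)
    ((pz 3).foldr (dig 2) (Ew 15 17 2))))))),
  .all 15 (.all 17 (.all 19 (.all 21 (.imp (.succ 15 19) (.imp (Rf 19 17 21) (.all 2
    (.imp (Ew 15 17 2) ((pd 3 false).foldr (dig 2) (Ew 19 21 2))))))))),
  .all 15 (.all 17 (.all 19 (.imp (.succ 19 17) (.all 2 (.imp (Ew 15 17 2) (Ew 15 19 2)))))),
  .all 15 (.all 17 (.all 19 (.all 21 (.imp (Ew 15 17 19) (.imp (.zero 21) (Kw 19 21 19)))))),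
  .all 15 (.all 17 (.all 2 (.imp (Kw 15 17 2) (dig 17 false (dig 2 false (Kw 15 17 2)))))),
  .all 15 (.all 17 (.all 2 (.imp (Kw 15 17 2) (dig 17 true (dig 2 true (Kw 15 17 2))))))]

/-- all axioms but one -/
def WF : List Fml := WB ++ EX

/-- `G (v₂₉, v₃₁, v₃₁)` -/
def GG (G : Fml) : Fml :=
  .all 2 (.imp (.eq 2 29) (.all 3 (.imp (.eq 3 31) (.all 4 (.imp (.eq 4 31) G)))))

/-- The formula for the last axiom: let `T = num (tau P v₂₉)`, `E (k, x, u)` and `K (u, T, w)`; if
not all colours are less than `x`, then there is no contradiction of length at most `x` from the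
axioms with the code `w`. -/
def rg (P G : Fml) : Fml :=
  .all 31 (.imp (GG G) (.all 15 (.all 3 (.all 17 (.imp (Ew 15 3 17) (.all 2
    (.imp (Kw 17 31 2) (.imp XX (Xi P)))))))))

/-- the number used for the self-reference -/
def zn (P G : Fml) : ℕ := code (rg P G :: WF)

/-- the last axiom -/
def rgs (P G : Fml) : Fml := dnum 29 (zn P G) (rg P G)

/-- the axiomatization -/
def AA (P G : Fml) : List Fml := rgs P G :: WF

/-! ### The pseudo-model -/

/-- the additional symbols -/
def OpQ (s : St) (i a b c : ℕ) : Prop :=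
  match i with
  | 6 => ∃ p q r, s.v a = .inl p ∧ s.v b = .inl q ∧ s.v c = .inl r ∧ Rrl p q r
  | 7 => ∃ p q r, s.v a = .inl p ∧ s.v b = .inl q ∧ s.v c = .inl r ∧ Erl p q r
  | 8 => ∃ p q r, s.v a = .inl p ∧ s.v b = .inl q ∧ s.v c = .inl r ∧ Krl p q r
  | i => OpP s i a b c

/-- pseudo-truth; the quantifiers range over the valid states that agree off the variable -/
def Tq (m : ℕ) : Fml → St → Prop
  | .bot, _ => False
  | .eq x y, s => Eqs s x y
  | .zero x, s => s.v x = .inl 0
  | .succ x y, s => SuccS s x y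
  | .add x y z, s => AddS s x y z
  | .mul x y z, s => MulS s x y z
  | .op i a b c _, s => OpQ s i a b c
  | .imp φ ψ, s => Tq m φ s → Tq m ψ s
  | .all x φ, s => ∀ t, Ok m t → Agr m x s t → Tq m φ t

/-- the formula is true in all valid states -/
def Tq1 (m : ℕ) (φ : Fml) : Prop := ∀ s, Ok m s → Tq m φ s

/-! ### The modules -/

/-- MODULE 1a: the logical axioms are pseudo-true. -/
def LogQT : Prop := ∀ (m : ℕ) (φ : Fml), LogK φ → Vlt m φ → Tq1 m φ

/-- MODULE 1b: the axioms `WB` are pseudo-true. -/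
def WBQT : Prop := ∀ (m : ℕ), ∀ φ ∈ WB, Vlt m φ → Tq1 m φ

/-- MODULE 1c: the axioms `EX` are pseudo-true. -/
def EXQT : Prop := ∀ (m : ℕ), ∀ φ ∈ EX, Vlt m φ → Tq1 m φ

/-- MODULE 2: the last axiom is pseudo-true. -/
def RgQT : Prop := ∀ (P G : Fml), Num P → NumG P G → ∀ m : ℕ,
  (∀ x < m, ∀ k, x ≤ (k + 1) ^ 2 →
    ¬ Proves (conAtD P (AA P G) (2 ^ (k + 1)) :: AA P G) x .bot) →
  Vlt m (rgs P G) → Tq1 m (rgs P G)

/-- MODULE 3: the axiom `Con_A (2 ^ n)` cannot be used in proofs of length at most `n ^ 2`. -/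
def OpaqT : Prop := ∀ (m n : ℕ) (P : Fml) (A : List Fml), 1 ≤ n → m ≤ n ^ 2 →
  (∀ x, P.Free x → x = 2 ∨ x = 3 ∨ x = 4) → (∀ φ ∈ A, Vlt m φ → Tq1 m φ) →
  ¬ Proves (conAtD P A (2 ^ n) :: A) m .bot

/-- MODULE 4: numerations. -/
def ExGT : Prop := (∀ P : Fml, ∃ G, NumG P G) ∧ ∃ P : Fml, Num P

/-- the fixed theorem -/
def Th (σ : List Bool) (X : Fml) : Fml :=
  .all 15 (.all 17 (.imp (.neg (Wn 17)) (.all 3 (.imp (.eq 3 17) (.all 2 (.imp (Ew 15 17 2)
    (σ.foldr (dig 2) X)))))))

/-- MODULE 5: the fixed proof. -/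
def FixQT : Prop := ∀ (P G : Fml), Num P → NumG P G →
  (∀ φ ∈ AA P G, φ.Closed) ∧ ∃ π, IsProof (AA P G) (Th (tau P (zn P G)) (Xi P) :: π)

/-- MODULE 6: short proofs. -/
def ShortQT : Prop := ∀ (A : List Fml) (σ : List Bool) (X : Fml), (∀ φ ∈ WF, φ ∈ A) →
  (∀ x, X.Free x → x = 2 ∨ x = 3) → (∃ π, IsProof A (Th σ X :: π)) →
  ∃ p : Polynomial ℕ, ∀ n m : ℕ, m ≤ (n + 1) ^ 2 → Proves A (p.eval n)
    (dnum 3 m (dnum 2 (num (pz 3 ++ (List.replicate n (pd 3 false)).flatten ++ σ)) X))

end Pool.Agent.J6H58.MC
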