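import Pool.Agent.J6H49.BC.Hil
import Pool.Agent.J6H58.MC.Stm

/-!
# Bounded Hilbert proofs

Proofs with a bounded number of lines, each of which has bounded length; derivations from
hypotheses. (After `J6H49/BC/Hil.lean` and `J6H49/BC/Sim.lean`, without quantifier complexity.)
-/

set_option autoImplicit false

namespace Pool.Agent.J6H58.MC

open Pool.Agent.TH672 (Fm varStr LogK ReplK Sw)
open Pool.Agent.TH636.BC (Fml Step IsProof str strs Proves)
open Pool.Agent.J6H49.BC (sz sz_bot sz_eq sz_zero sz_succ sz_op sz_imp sz_all sz_pos imps imps_nil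
  imps_cons imps_append cs cs_nil cs_cons cs_append sz_imps cs_le len_le_cs)

variable {Γ : List Fml} {L : ℕ}

/-- `φ` is derivable in at most `N` lines of length at most `L`. -/
def Dw (Γ : List Fml) (L N : ℕ) (φ : Fml) : Prop :=
  ∃ π, IsProof Γ π ∧ π.length ≤ N ∧ (∀ ψ ∈ π, sz ψ ≤ L) ∧ φ ∈ π

theorem Dw.mono {N N' : ℕ} {φ : Fml} (h : Dw Γ L N φ) (hN : N ≤ N') : Dw Γ L N' φ := by
  obtain ⟨π, h1, h2, h3, h4⟩ := h
  exact ⟨π, h1, h2.trans hN, h3, h4⟩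

theorem Dw.monoL {N L' : ℕ} {φ : Fml} (h : Dw Γ L N φ) (hL : L ≤ L') : Dw Γ L' N φ := by
  obtain ⟨π, h1, h2, h3, h4⟩ := h
  exact ⟨π, h1, h2, fun ψ hψ => (h3 ψ hψ).trans hL, h4⟩

theorem Dw.sz_le {N : ℕ} {φ : Fml} (h : Dw Γ L N φ) : sz φ ≤ L := by
  obtain ⟨π, h1, h2, h3, h4⟩ := h
  exact h3 _ h4

theorem isProof_mono {Γ' : List Fml} (h : ∀ φ ∈ Γ, φ ∈ Γ') : ∀ {π : List Fml}, IsProof Γ π →
    IsProof Γ' π
  | [], _ => trivial
  | _ :: _, ⟨h1, h2⟩ => ⟨isProof_mono h h1, by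
      rcases h2 with h2 | h2 | h2 | h2
      · exact .inl (h _ h2)
      · exact .inr (.inl h2)
      · exact .inr (.inr (.inl h2))
      · exact .inr (.inr (.inr h2))⟩

theorem Dw.monoA {Γ' : List Fml} {N : ℕ} {φ : Fml} (h : Dw Γ L N φ) (hG : ∀ φ ∈ Γ, φ ∈ Γ') :
    Dw Γ' L N φ := by
  obtain ⟨π, h1, h2, h3, h4⟩ := h
  exact ⟨π, isProof_mono hG h1, h2, h3, h4⟩

theorem isProof_step {π : List Fml} {φ : Fml} (h : IsProof Γ π) (hφ : φ ∈ π) :
    Step Γ π φ := by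
  induction π with
  | nil => simp at hφ
  | cons ψ π ih =>
    obtain ⟨h1, h2⟩ := h
    have key : Step Γ π φ := by
      rcases List.mem_cons.1 hφ with rfl | hφ
      · exact h2
      · exact ih h1 hφ
    exact Pool.Agent.TH838.J1549.step_mono key fun _ hx => List.mem_cons_of_mem _ hx

theorem strs_len_le {π : List Fml} (h : ∀ ψ ∈ π, sz ψ ≤ L) : (strs π).length ≤ π.length * L := by
  induction π with
  | nil => simp [strs]
  | cons ψ π ih =>
    have e : strs (ψ :: π) = str ψ ++ strs π := rfl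
    rw [e, List.length_append, List.length_cons, Nat.succ_mul]
    have h1 := h ψ List.mem_cons_self
    have h2 := ih fun χ hχ => h χ (List.mem_cons_of_mem _ hχ)
    unfold sz at h1
    omega

theorem Dw.proves {N : ℕ} {φ : Fml} (h : Dw Γ L N φ) : Proves Γ ((N + 1) * L) φ := by
  obtain ⟨π, h1, h2, h3, h4⟩ := h
  refine ⟨π, ⟨h1, isProof_step h1 h4⟩, ?_⟩
  refine (strs_len_le (L := L) ?_).trans ?_
  · intro ψ hψ
    rcases List.mem_cons.1 hψ with rfl | hψ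
    · exact h3 _ h4
    · exact h3 _ hψ
  · exact Nat.mul_le_mul_right _ (by rw [List.length_cons]; omega)

theorem Dw.ax {φ : Fml} (h : φ ∈ Γ) (hs : sz φ ≤ L) : Dw Γ L 1 φ :=
  ⟨[φ], ⟨trivial, .inl h⟩, le_rfl, fun ψ hψ => by
    rw [List.mem_singleton] at hψ; rw [hψ]; exact hs, by simp⟩

theorem Dw.log {φ : Fml} (h : LogK φ) (hs : sz φ ≤ L) : Dw Γ L 1 φ :=
  ⟨[φ], ⟨trivial, .inr (.inl h)⟩, le_rfl, fun ψ hψ => by
    rw [List.mem_singleton] at hψ; rw [hψ]; exact hs, by simp⟩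

theorem Dw.mp {N N' : ℕ} {φ ψ : Fml} (h : Dw Γ L N (φ.imp ψ)) (h' : Dw Γ L N' φ) :
    Dw Γ L (N + N' + 1) ψ := by
  have hs := h.sz_le
  rw [sz_imp] at hs
  obtain ⟨π, h1, h2, h3, h4⟩ := h
  obtain ⟨π', h1', h2', h3', h4'⟩ := h'
  refine ⟨ψ :: (π ++ π'), ⟨Pool.Agent.TH838.J1549.isProof_append h1 h1',
    .inr (.inr (.inl ⟨φ, ?_, ?_⟩))⟩, ?_, ?_, by simp⟩
  · exact List.mem_append_right _ h4'
  · exact List.mem_append_left _ h4
  · simp only [List.length_cons, List.length_append]; omega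
  · intro χ hχ
    simp only [List.mem_cons, List.mem_append] at hχ
    rcases hχ with rfl | hχ | hχ
    · omega
    · exact h3 χ hχ
    · exact h3' χ hχ

theorem Dw.gen {N : ℕ} {φ : Fml} (h : Dw Γ L N φ) (x : ℕ) (hs : sz (.all x φ) ≤ L) :
    Dw Γ L (N + 1) (.all x φ) := by
  obtain ⟨π, h1, h2, h3, h4⟩ := h
  refine ⟨.all x φ :: π, ⟨h1, .inr (.inr (.inr ⟨φ, h4, x, rfl⟩))⟩, ?_, ?_, by simp⟩
  · simp only [List.length_cons]; omega
  · intro χ hχ
    rcases List.mem_cons.1 hχ with rfl | hχ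
    · exact hs
    · exact h3 χ hχ

/-! ### propositional rules -/

theorem Dw.kk {N : ℕ} {X g : Fml} (h : Dw Γ L N X) (hL : 2 * sz X + sz g + 8 ≤ L) :
    Dw Γ L (N + 2) (g.imp X) := by
  have h1 : Dw Γ L 1 (X.imp (g.imp X)) := .log (.k X g) (by simp only [sz_imp]; omega)
  exact (h1.mp h).mono (by omega)

theorem Dw.ss {N : ℕ} {X Y g : Fml} (h : Dw Γ L N (g.imp (X.imp Y)))
    (hL : 3 * sz g + 2 * sz X + 2 * sz Y + 28 ≤ L) :
    Dw Γ L (N + 2) ((g.imp X).imp (g.imp Y)) := by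
  have h1 : Dw Γ L 1 ((g.imp (X.imp Y)).imp ((g.imp X).imp (g.imp Y))) :=
    .log (.s g X Y) (by simp only [sz_imp]; omega)
  exact (h1.mp h).mono (by omega)

theorem Dw.id {X : Fml} (hL : 9 * sz X + 40 ≤ L) : Dw Γ L 5 (X.imp X) := by
  have h1 : Dw Γ L 1 (X.imp ((X.imp X).imp X)) :=
    .log (.k X (X.imp X)) (by simp only [sz_imp]; omega)
  have h2 := h1.ss (by simp only [sz_imp]; omega)
  have h3 : Dw Γ L 1 (X.imp (X.imp X)) := .log (.k X X) (by simp only [sz_imp]; omega)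
  exact (h2.mp h3).mono (by omega)

/-- from `X → Y` to `(g → X) → (g → Y)` -/
theorem Dw.cm {N : ℕ} {X Y g : Fml} (h : Dw Γ L N (X.imp Y))
    (hL : 3 * sz g + 2 * sz X + 2 * sz Y + 28 ≤ L) :
    Dw Γ L (N + 4) ((g.imp X).imp (g.imp Y)) := by
  have := sz_pos g
  exact ((h.kk (g := g) (by simp only [sz_imp]; omega)).ss hL).mono (by omega)

theorem Dw.tr {N N' : ℕ} {X Y Z : Fml} (h : Dw Γ L N (X.imp Y))
    (h' : Dw Γ L N' (Y.imp Z)) (hL : 3 * sz X + 2 * sz Y + 2 * sz Z + 28 ≤ L) :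
    Dw Γ L (N + N' + 5) (X.imp Z) := by
  have h1 := h'.cm (g := X) hL
  exact (h1.mp h).mono (by omega)

/-! ### contexts -/

/-- weakening at the front -/
theorem Dw.wf {N : ℕ} {X : Fml} (h : Dw Γ L N X) : ∀ {Δ : List Fml},
    2 * (cs Δ + sz X) + 8 ≤ L → Dw Γ L (N + 2 * Δ.length) (imps Δ X)
  | [], _ => h
  | g :: Δ, hL => by
    rw [cs_cons] at hL
    have h1 := Dw.wf h (Δ := Δ) (by omega)
    have h2 := h1.kk (g := g) (by rw [sz_imps]; omega)
    exact h2.mono (by rw [List.length_cons]; omega)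

/-- monotonicity -/
theorem Dw.mt {N : ℕ} {X Y : Fml} (h : Dw Γ L N (X.imp Y)) :
    ∀ {Δ : List Fml}, 4 * cs Δ + 2 * sz X + 2 * sz Y + 28 ≤ L →
      Dw Γ L (N + 4 * Δ.length) ((imps Δ X).imp (imps Δ Y))
  | [], _ => h
  | g :: Δ, hL => by
    rw [cs_cons] at hL
    have h1 := Dw.mt h (Δ := Δ) (by omega)
    have h2 := h1.cm (g := g) (by rw [sz_imps, sz_imps]; omega)
    exact h2.mono (by rw [List.length_cons]; omega)

/-- modus ponens in a context -/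
theorem mpW {a b : Fml} : ∀ {Δ : List Fml}, 20 * (cs Δ + sz a + sz b) + 100 ≤ L →
      Dw Γ L (5 + 11 * Δ.length) ((imps Δ (a.imp b)).imp ((imps Δ a).imp (imps Δ b)))
  | [], hL => by
    have := Dw.id (Γ := Γ) (L := L) (X := a.imp b) (by
      simp only [sz_imp, cs_nil] at *; omega)
    simpa using this
  | g :: Δ, hL => by
    rw [cs_cons] at hL
    have h1 := mpW (a := a) (b := b) (Δ := Δ) (by omega)
    have h2 := h1.cm (g := g) (by simp only [sz_imp, sz_imps]; omega)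
    have h3 : Dw Γ L 1 ((g.imp ((imps Δ a).imp (imps Δ b))).imp
        ((g.imp (imps Δ a)).imp (g.imp (imps Δ b)))) :=
      .log (.s _ _ _) (by simp only [sz_imp, sz_imps]; omega)
    have h4 := h2.tr h3 (by simp only [sz_imp, sz_imps]; omega)
    exact h4.mono (by rw [List.length_cons]; omega)

/-- the universal quantifier and a context -/
theorem genW {x : ℕ} {φ : Fml} : ∀ {Δ : List Fml}, (∀ g ∈ Δ, ¬ g.Free x) →
    20 * (cs Δ + sz φ + x) + 200 ≤ L →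
      Dw Γ L (5 + 11 * Δ.length) ((Fm.all x (imps Δ φ)).imp (imps Δ (Fm.all x φ)))
  | [], _, hL => Dw.id (Γ := Γ) (L := L) (by
      simp only [sz_all, cs_nil, imps_nil] at *; omega)
  | g :: Δ, hx, hL => by
    rw [cs_cons] at hL
    have h1 := genW (φ := φ)
      (fun g' hg' => hx g' (List.mem_cons_of_mem _ hg')) (by omega)
    have h2 := h1.cm (g := g) (by simp only [sz_all, sz_imps]; omega)
    have h3 : Dw Γ L 1 ((Fm.all x (g.imp (imps Δ φ))).imp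
        (g.imp (Fm.all x (imps Δ φ)))) :=
      .log (.dist x g (imps Δ φ) (hx g List.mem_cons_self))
        (by simp only [sz_imp, sz_all, sz_imps]; omega)
    have h4 := h3.tr h2 (by simp only [sz_imp, sz_all, sz_imps]; omega)
    exact h4.mono (by rw [List.length_cons]; omega)

/-- a hypothesis -/
theorem hypW0 {a : Fml} : ∀ {Δ : List Fml}, 20 * (cs Δ + sz a) + 100 ≤ L →
    Dw Γ L (5 + 7 * Δ.length) (a.imp (imps Δ a))
  | [], hL => Dw.id (by simp only [cs_nil] at hL; omega)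
  | g :: Δ, hL => by
    rw [cs_cons] at hL
    have h1 := hypW0 (a := a) (Δ := Δ) (by omega)
    have h2 : Dw Γ L 1 ((imps Δ a).imp (g.imp (imps Δ a))) :=
      .log (.k _ _) (by simp only [sz_imp, sz_imps]; omega)
    have h3 := h1.tr h2 (by simp only [sz_imp, sz_imps]; omega)
    exact h3.mono (by rw [List.length_cons]; omega)

theorem hypW {a : Fml} {Δ : List Fml} (h : a ∈ Δ) (hL : 40 * cs Δ + 100 ≤ L) :
    Dw Γ L (5 + 9 * Δ.length) (imps Δ a) := by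
  obtain ⟨Δ1, Δ2, rfl⟩ := List.append_of_mem h
  rw [cs_append, cs_cons] at hL
  have h3 := hypW0 (a := a) (Δ := Δ2) (Γ := Γ) (L := L) (by omega)
  have h4 := h3.wf (Δ := Δ1) (by simp only [sz_imp, sz_imps]; omega)
  rw [imps_append, imps_cons]
  refine h4.mono ?_
  simp only [List.length_append, List.length_cons]
  omega

/-- peeling -/
theorem peelW {φ : Fml} {Δ' : List Fml} :
    ∀ {Δ : List Fml} {N : ℕ}, (∀ g ∈ Δ, g ∈ Δ') →
      40 * (cs Δ' + cs Δ + sz φ) + 400 ≤ L → Dw Γ L N (imps Δ' (imps Δ φ)) →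
        Dw Γ L (N + Δ.length * (12 + 20 * Δ'.length)) (imps Δ' φ)
  | [], N, _, _, h => by simpa using h
  | g :: Δ, N, hΔ, hL, h => by
    rw [cs_cons] at hL
    have hg : g ∈ Δ' := hΔ g List.mem_cons_self
    have hΔ1 : ∀ g' ∈ Δ, g' ∈ Δ' := fun g' hg' => hΔ g' (List.mem_cons_of_mem _ hg')
    have h1 : Dw Γ L (5 + 11 * Δ'.length) _ := mpW (a := g) (b := imps Δ φ) (Δ := Δ')
      (by rw [sz_imps]; omega)
    rw [imps_cons] at h
    have h2 := h1.mp h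
    have h3 : Dw Γ L (5 + 9 * Δ'.length) (imps Δ' g) := hypW hg (by omega)
    have h4 := h2.mp h3
    have h5 := peelW hΔ1 (by omega) h4
    refine h5.mono ?_
    rw [List.length_cons, Nat.add_mul Δ.length 1, Nat.one_mul]
    omega

/-! ### derivations from hypotheses -/

/-- the axioms, the maximal length of a context and the maximal size of a formula -/
structure Pr where
  Γ : List Fml
  L : ℕ
  l : ℕ
  s : ℕ
  hL : 1000 * ((l + 1) * (s + 4) + 1) ≤ L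

/-- the cost of a rule -/
def Pr.c (p : Pr) : ℕ := 100 * (p.l + 1) ^ 2

/-- admissible contexts -/
structure Cx (p : Pr) (Δ : List Fml) : Prop where
  len : Δ.length ≤ p.l
  ctx : ∀ g ∈ Δ, sz g ≤ p.s

/-- `φ` is derivable from `Δ` in at most `N` lines. -/
structure Dc (p : Pr) (Δ : List Fml) (N : ℕ) (φ : Fml) : Prop where
  cx : Cx p Δ
  le : sz φ ≤ p.s
  dw : Dw p.Γ p.L N (imps Δ φ)

variable {p : Pr} {Δ Δ' : List Fml} {N N' : ℕ} {φ ψ : Fml}

theorem Cx.cs_le (h : Cx p Δ) : 1000 * (cs Δ + p.s + 4) + 1000 ≤ p.L := by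
  have h1 := Pool.Agent.J6H49.BC.cs_le h.ctx
  have h2 : Δ.length * (p.s + 4) ≤ p.l * (p.s + 4) := Nat.mul_le_mul_right _ h.len
  have h3 := p.hL
  rw [Nat.add_mul, Nat.one_mul] at h3
  omega

theorem Pr.le_c (p : Pr) : 200 * p.l + 100 ≤ p.c := by
  unfold Pr.c
  nlinarith

theorem Pr.le_c' (p : Pr) : 2 * p.l + p.l * (12 + 20 * p.l) ≤ p.c := by
  unfold Pr.c
  nlinarith

theorem Dc.up (h : Dc p Δ N φ) (hN : N ≤ N') : Dc p Δ N' φ :=
  ⟨h.cx, h.le, h.dw.mono hN⟩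

theorem Dc.hyp (hΔ : Cx p Δ) (h : φ ∈ Δ) : Dc p Δ p.c φ := by
  have h1 := hΔ.cs_le
  have h2 := hΔ.len
  have h3 := p.le_c
  exact ⟨hΔ, hΔ.ctx _ h, (hypW h (by omega)).mono (by omega)⟩

theorem Dc.thm (hΔ : Cx p Δ) (hs : sz φ ≤ p.s) (h : Dw p.Γ p.L N φ) : Dc p Δ (N + p.c) φ := by
  have h1 := hΔ.cs_le
  have h2 := hΔ.len
  have h3 := p.le_c
  exact ⟨hΔ, hs, (h.wf (by omega)).mono (by omega)⟩

theorem Dc.mp (h : Dc p Δ N (φ.imp ψ)) (h' : Dc p Δ N' φ) : Dc p Δ (N + N' + p.c) ψ := by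
  have h1 := h.cx.cs_le
  have h2 := h.cx.len
  have h3 := p.le_c
  have h4 := h.le
  rw [sz_imp] at h4
  have q1 : Dw p.Γ p.L (5 + 11 * Δ.length) _ := mpW (a := φ) (b := ψ) (Δ := Δ) (by omega)
  exact ⟨h.cx, by omega, ((q1.mp h.dw).mp h'.dw).mono (by omega)⟩

theorem Dc.impI (h : Dc p (Δ ++ [φ]) N ψ) (hs : sz (φ.imp ψ) ≤ p.s) : Dc p Δ N (φ.imp ψ) := by
  refine ⟨⟨?_, fun g hg => h.cx.ctx g (List.mem_append_left _ hg)⟩, hs, ?_⟩
  · have := h.cx.len
    rw [List.length_append] at this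
    omega
  · have := h.dw
    rw [imps_append] at this
    exact this

theorem Dc.allI {x : ℕ} (h : Dc p Δ N φ) (hx : ∀ g ∈ Δ, ¬ g.Free x)
    (hs : sz (.all x φ) ≤ p.s) : Dc p Δ (N + p.c) (.all x φ) := by
  have h1 := h.cx.cs_le
  have h2 := h.cx.len
  have h3 := p.le_c
  have h4 := hs
  rw [sz_all] at h4
  have q1 := h.dw.gen x (by simp only [sz_all, sz_imps]; omega)
  have q2 : Dw p.Γ p.L (5 + 11 * Δ.length) _ := genW (φ := φ) hx (by omega)
  exact ⟨h.cx, hs, (q2.mp q1).mono (by omega)⟩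

theorem Dc.allE {x : ℕ} (y : ℕ) (h : Dc p Δ N (.all x φ)) (hf : φ.FreeFor y x)
    (hs : sz (φ.subst x y) ≤ p.s) : Dc p Δ (N + p.c) (φ.subst x y) := by
  have h1 := h.cx.cs_le
  have h2 := h.cx.len
  have h3 := p.le_c
  have h4 := h.le
  have q1 : Dw p.Γ p.L 1 ((Fm.all x φ).imp (φ.subst x y)) :=
    .log (.inst x y φ hf) (by rw [sz_imp]; omega)
  have q2 := q1.mt (Δ := Δ) (by omega)
  exact ⟨h.cx, hs, (q2.mp h.dw).mono (by omega)⟩

theorem Dc.dn (h : Dc p Δ N φ.neg.neg) : Dc p Δ (N + p.c) φ := by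
  have h1 := h.cx.cs_le
  have h2 := h.cx.len
  have h3 := p.le_c
  have h4 := h.le
  have h5 : sz φ.neg.neg = sz φ + 16 := by
    simp only [Fm.neg, sz_imp, sz_bot]
  rw [h5] at h4
  have q1 : Dw p.Γ p.L 1 (φ.neg.neg.imp φ) := .log (.dn φ) (by rw [sz_imp, h5]; omega)
  have q2 := q1.mt (Δ := Δ) (by omega)
  exact ⟨h.cx, by omega, (q2.mp h.dw).mono (by omega)⟩

theorem Dc.sub (h : Dc p Δ N φ) (hs : ∀ g ∈ Δ, g ∈ Δ') (hΔ' : Cx p Δ') :
    Dc p Δ' (N + p.c) φ := by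
  have h1 := h.cx.cs_le
  have h2 := h.cx.len
  have h1' := hΔ'.cs_le
  have h2' := hΔ'.len
  have h3 := p.le_c'
  have h4 := h.le
  have q1 := h.dw.wf (Δ := Δ') (by rw [sz_imps]; omega)
  have q2 := peelW hs (by omega) q1
  refine ⟨hΔ', h4, q2.mono ?_⟩
  have e5 : Δ.length * (12 + 20 * Δ'.length) ≤ p.l * (12 + 20 * p.l) :=
    Nat.mul_le_mul h2 (by omega)
  omega

/-- a logical axiom -/
theorem Dc.log (hΔ : Cx p Δ) (hs : sz φ ≤ p.s) (h : LogK φ) : Dc p Δ (1 + p.c) φ := by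
  have h1 := hΔ.cs_le
  exact .thm hΔ hs (.log h (by omega))

/-- an axiom -/
theorem Dc.ax (hΔ : Cx p Δ) (hs : sz φ ≤ p.s) (h : φ ∈ p.Γ) : Dc p Δ (1 + p.c) φ := by
  have h1 := hΔ.cs_le
  exact .thm hΔ hs (.ax h (by omega))

end Pool.Agent.J6H58.MC
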