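import Pool.Agent.J6H58.MC.Basic
import Pool.Agent.J6H49.BC.Stm3

/-!
# The final statement: finite language, truth in the standard model
-/

set_option autoImplicit false

namespace Pool.Agent.J6H58.MC

open Pool.Agent.TH672 (Fm Str)
open Pool.Agent.TH636.BC (Fml Step IsProof str strs Proves code robinson)
open Pool.Agent.J6H49.BC (expansion stdR)

/-- the relations for the theory `AA P G` in the standard model -/
def stdQ (i a b c d : ℕ) : Prop :=
  match i with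
  | 6 => Rrl a b c
  | 7 => Erl a b c
  | 8 => Krl a b c
  | i => stdR i a b c d

/-- MODULE 7: the theory is true in an expansion of the standard model, if it is consistent in the
sense of the last axiom. -/
def TrueQT : Prop := ∀ (P G : Fml), Num P → NumG P G →
  (∀ m n : ℕ, m ≤ n ^ 2 → ¬ Proves (conAtD P (AA P G) (2 ^ n) :: AA P G) m .bot) →
  ∀ φ ∈ AA P G, ∀ v : ℕ → ℕ, Fm.Sat (expansion stdQ) φ v

/-- MODULE 8: the finite consistency statements are true in the standard model if and only if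
there is no such proof. -/
def TrueConQT : Prop := ∀ P : Fml, Num P → ∀ (R : ℕ → ℕ → ℕ → ℕ → ℕ → Prop) (Γ : List Fml)
  (n : ℕ) (v : ℕ → ℕ), (Fm.Sat (expansion R) (conAtD P Γ n) v ↔ ¬ Proves Γ n .bot)

/-- The formula contains no predicate symbols `R i` with `i ≥ 9`. -/
def InQ : Fml → Prop
  | .op i _ _ _ _ => i < 9
  | .imp φ ψ => InQ φ ∧ InQ ψ
  | .all _ φ => InQ φ
  | _ => True

/-- MODULE 9: proofs can be translated into the finite language. -/
def LangT : Prop := (∀ (Γ : List Fml) (m : ℕ) (φ : Fml), (∀ ψ ∈ Γ, InQ ψ) → InQ φ → Proves Γ m φ →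
    ∃ π, IsProof Γ (φ :: π) ∧ (strs (φ :: π)).length ≤ m ∧ ∀ ψ ∈ φ :: π, InQ ψ) ∧
  ∀ (P G : Fml), Num P → NumG P G → (∀ φ ∈ AA P G, InQ φ) ∧
    ∀ (Γ : List Fml) (n : ℕ), InQ (conAtD P Γ n)

/-- MODULE 10: the case `m = 0`, and the length of the added axiom. -/
def SmallT : Prop := ∀ P : Fml, Num P →
  (∀ (A Γ : List Fml), (∀ φ ∈ robinson, φ ∈ A) → ∃ k, Proves A k (conAtD P Γ 0)) ∧
  ∀ A : List Fml, ∃ C, ∀ n : ℕ, (str (conAtD P A (2 ^ n))).length ≤ 100 * n + C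

/-- The final statement. -/
def Main3 : Prop := (∃ P : Fml, Num P) ∧
  ∀ P : Fml, Num P →
    (∀ (R : ℕ → ℕ → ℕ → ℕ → ℕ → Prop) (Γ : List Fml) (n : ℕ) (v : ℕ → ℕ),
      (Fm.Sat (expansion R) (conAtD P Γ n) v ↔ ¬ Proves Γ n .bot)) ∧
    ∃ (A : List Fml) (p : Polynomial ℕ) (C : ℕ),
      (∀ φ ∈ robinson, φ ∈ A) ∧ (∀ φ ∈ A, φ.Closed ∧ InQ φ) ∧ (∀ m, ¬ Proves A m .bot) ∧
      (∃ R, ∀ φ ∈ A, ∀ v : ℕ → ℕ, Fm.Sat (expansion R) φ v) ∧
      (∀ n : ℕ, (str (conAtD P A (2 ^ n))).length ≤ 100 * n + C) ∧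
      ∀ n m : ℕ, m ≤ n ^ 2 → ∃ π,
        IsProof A (conAtD P (conAtD P A (2 ^ n) :: A) m :: π) ∧
        (strs (conAtD P (conAtD P A (2 ^ n) :: A) m :: π)).length ≤ p.eval n ∧
        ∀ φ ∈ conAtD P (conAtD P A (2 ^ n) :: A) m :: π, InQ φ

end Pool.Agent.J6H58.MC
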