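import Pool.Agent.J6H58.MC.Sho
import Pool.Agent.J6H58.MC.Stm2
import Pool.Agent.J6H49.BC.Col
import Pool.Agent.J6H40.BC.Subst2
import Pool.Agent.J6H92.BC.D2a
import Pool.Agent.J6H94.BC.D2b
import Pool.Agent.J6H63.BC.D3a
import Pool.Agent.J6H62.MC.WB
import Pool.Agent.J6H62.MC.EX
import Pool.Agent.J6H83.MC.Rg
import Pool.Agent.J6H80.MC.Opaq
import Pool.Agent.J6H80.MC.Lang
import Pool.Agent.J6H82.MC.ExG
import Pool.Agent.J6H30.MC.Fix
import Pool.Agent.J6H75.MC.TrueQ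
import Pool.Agent.J6H63.MC.TrueConQ
import Pool.Agent.J6H50.MC.Small

/-!
# The theorem from all modules
-/

set_option autoImplicit false

namespace Pool.Agent.J6H58.MC

open Pool.Agent.TH672 (Fm Str num digits)
open Pool.Agent.TH636.BC (Fml Step IsProof str strs Proves code robinson Vlt)
open Pool.Agent.J6H49.BC (WB)

/-- Consistency of `A + Con_A (2 ^ n)` for proofs of length at most `n ^ 2`. -/
theorem consQ (P G : Fml) (hP : Num P) (hG : NumG P G) : ∀ m n : ℕ, m ≤ n ^ 2 →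
    ¬ Proves (conAtD P (AA P G) (2 ^ n) :: AA P G) m .bot := by
  intro m
  induction m using Nat.strong_induction_on with
  | _ m ih =>
    intro n hm
    rcases Nat.eq_zero_or_pos n with rfl | hn
    · rintro ⟨π, -, h2⟩
      have e : strs (Fm.bot :: π) = str Fm.bot ++ strs π := rfl
      rw [e, List.length_append] at h2
      have e1 : (str (Fm.bot : Fml)).length = 4 := rfl
      have e2 : m = 0 := by simpa using hm
      omega
    · refine Pool.Agent.J6H80.MC.opaq Pool.Agent.J6H62.MC.logQ m n P (AA P G) hn hm hP.free ?_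
      intro φ hφ hv
      rcases List.mem_cons.1 hφ with rfl | hφ
      · exact Pool.Agent.J6H83.MC.rgQT P G hP hG m
          (fun x hx k hk => ih x hx (k + 1) hk) hv
      · rcases List.mem_append.1 hφ with hφ | hφ
        · exact Pool.Agent.J6H62.MC.wbQ m φ hφ hv
        · exact Pool.Agent.J6H62.MC.exQ m φ hφ hv

theorem consA (P G : Fml) (hP : Num P) (hG : NumG P G) (m : ℕ) : ¬ Proves (AA P G) m .bot := by
  rintro ⟨π, h1, h2⟩
  exact consQ P G hP hG m m (by nlinarith)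
    ⟨π, isProof_mono (fun φ hφ => List.mem_cons_of_mem _ hφ) h1, h2⟩

/-- MODULE 6 -/
theorem shortQT : ShortQT :=
  shortQ (Pool.Agent.J6H49.BC.shortW Pool.Agent.J6H40.BC.sl Pool.Agent.J6H40.BC.zl
    Pool.Agent.J6H92.BC.d2a Pool.Agent.J6H94.BC.d2b Pool.Agent.J6H63.BC.d3a)

/-- The main theorem. -/
theorem main3 : Main3 := by
  refine ⟨Pool.Agent.J6H82.MC.exG.2, fun P hP =>
    ⟨fun R Γ n v => Pool.Agent.J6H63.MC.trueConQ P hP R Γ n v, ?_⟩⟩
  obtain ⟨G, hG⟩ := Pool.Agent.J6H82.MC.exG.1 P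
  obtain ⟨hcl, hfix⟩ := Pool.Agent.J6H30.MC.fixQ P G hP hG
  obtain ⟨hl1, hl2⟩ := Pool.Agent.J6H80.MC.langQ
  obtain ⟨hl3, hl4⟩ := hl2 P G hP hG
  have hWF : ∀ φ ∈ WF, φ ∈ AA P G := fun φ hφ => List.mem_cons_of_mem _ hφ
  have hrob : ∀ φ ∈ robinson, φ ∈ AA P G := fun φ hφ => hWF φ (by
    unfold WF WB
    simp [hφ])
  obtain ⟨q, hq⟩ := shortQT (AA P G) (tau P (zn P G)) (Xi P) hWF
    (fun x hx => free_Xi hP.free hx) hfix
  obtain ⟨hs1, hs2⟩ := Pool.Agent.J6H50.MC.smallQ P hP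
  obtain ⟨C, hC⟩ := hs2 (AA P G)
  obtain ⟨k0, hk0⟩ := hs1 (AA P G) (conAtD P (AA P G) (2 ^ 0) :: AA P G) hrob
  refine ⟨AA P G, q + Polynomial.C k0, C, hrob, fun φ hφ => ⟨hcl φ hφ, hl3 φ hφ⟩,
    consA P G hP hG, ⟨stdQ, Pool.Agent.J6H75.MC.trueQ P G hP hG (consQ P G hP hG)⟩, hC, ?_⟩
  intro n m hm
  refine hl1 (AA P G) _ _ hl3 (hl4 _ _) ?_
  rw [Polynomial.eval_add, Polynomial.eval_C]
  rcases Nat.eq_zero_or_pos n with rfl | hn
  · have e2 : m = 0 := by simpa using hm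
    subst e2
    obtain ⟨π, h1, h2⟩ := hk0
    exact ⟨π, h1, by omega⟩
  · obtain ⟨k, rfl⟩ : ∃ k, n = k + 1 := ⟨n - 1, by omega⟩
    have h := hq k m hm
    have e : conAtD P (conAtD P (AA P G) (2 ^ (k + 1)) :: AA P G) m =
        dnum 3 m (dnum 2 (num (pz 3 ++ (List.replicate k (pd 3 false)).flatten ++
          tau P (zn P G))) (Xi P)) := by
      rw [← code_ext]
      rfl
    rw [e]
    obtain ⟨π, h1, h2⟩ := h
    refine ⟨π, h1, h2.trans ?_⟩
    have h3 : q.eval k ≤ q.eval (k + 1) := PF.mono' ⟨q, fun _ => rfl⟩ (Nat.le_succ k)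
    omega

end Pool.Agent.J6H58.MC
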