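import Pool.Agent.J6H58.MC.Mac

/-!
# Short proofs: instances of the axioms
-/

set_option autoImplicit false

namespace Pool.Agent.J6H58.MC

open Pool.Agent.TH672 (Fm varStr LogK ReplK Sw num digits)
open Pool.Agent.TH672.Form (ren)
open Pool.Agent.TH636.BC (Fml Step IsProof str strs Proves lt col robinson)
open Pool.Agent.J6H49.BC (sz sz_bot sz_eq sz_zero sz_succ sz_op sz_imp sz_all sz_pos imps imps_nil
  imps_cons imps_append len_varStr WB XX Wn)

variable {p : Pr} {Δ Δ' : List Fml} {N N' N'' N3 : ℕ} {φ ψ : Fml}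

theorem ren_ne {x u : ℕ} (y : ℕ) (h : u ≠ x) : ren x y u = u := by simp [ren, h]
theorem ren_same (x y : ℕ) : ren x y x = y := by simp [ren]

theorem sz_subst_le (x y : ℕ) : ∀ φ : Fml, sz (φ.subst x y) ≤ sz φ * (y + 1) := by
  have hr : ∀ u, ren x y u + 1 ≤ (u + 1) * (y + 1) := by
    intro u
    unfold ren
    split_ifs
    · nlinarith
    · nlinarith
  intro φ
  induction φ with
  | bot => simp only [Fm.subst, sz_bot]; omega
  | eq u v =>
    have h1 := hr u
    have h2 := hr v
    simp only [Fm.subst, sz_eq]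
    nlinarith
  | zero u =>
    have h1 := hr u
    simp only [Fm.subst, sz_zero]
    nlinarith
  | succ u v =>
    have h1 := hr u
    have h2 := hr v
    simp only [Fm.subst, sz_succ]
    nlinarith
  | add u v w =>
    have h1 := hr u
    have h2 := hr v
    have h3 := hr w
    simp only [Fm.subst, sz_add]
    nlinarith
  | mul u v w =>
    have h1 := hr u
    have h2 := hr v
    have h3 := hr w
    have e : ∀ x y z : ℕ, sz (.mul x y z : Fml) = x + y + z + 7 := fun x y z => by
      simp only [sz, str, List.length_append, len_varStr, List.length_cons, List.length_nil]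
      omega
    simp only [Fm.subst, e]
    nlinarith
  | op i a b c d =>
    have h1 := hr a
    have h2 := hr b
    have h3 := hr c
    have h4 := hr d
    simp only [Fm.subst, sz_op]
    nlinarith
  | imp φ ψ ih ih' =>
    simp only [Fm.subst, sz_imp]
    nlinarith
  | all u φ ih =>
    simp only [Fm.subst]
    split_ifs with h
    · nlinarith [Nat.zero_le (sz (Fm.all u φ) * y)]
    · simp only [sz_all]
      nlinarith

/-- instantiation -/
theorem Dc.al {x : ℕ} (y : ℕ) (h : Dc p Δ N (.all x φ)) (hf : φ.FreeFor y x)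
    (hs : sz φ * (y + 1) ≤ p.s) : Dc p Δ (N + p.c) (φ.subst x y) :=
  h.allE y hf ((sz_subst_le x y φ).trans hs)

/-! ### substitutions in digits -/

theorem subst_dig {z x y : ℕ} (b : Bool) (φ : Fml) (h0 : x ≠ 0) (h1 : x ≠ 1) (hz : x ≠ z) :
    (dig z b φ).subst x y = dig z b (φ.subst x y) := by
  cases b
  · simp only [dig, Bool.false_eq_true, if_false, Fm.subst, if_neg (Ne.symm h0),
      if_neg (Ne.symm hz), ren_ne y (Ne.symm h0), ren_ne y (Ne.symm hz)]
  · simp only [dig, if_true, Fm.subst, if_neg (Ne.symm h0), if_neg (Ne.symm h1),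
      if_neg (Ne.symm hz), ren_ne y (Ne.symm h0), ren_ne y (Ne.symm h1), ren_ne y (Ne.symm hz)]

theorem subst_digs {z x y : ℕ} (φ : Fml) (h0 : x ≠ 0) (h1 : x ≠ 1) (hz : x ≠ z) :
    ∀ σ : List Bool, (σ.foldr (dig z) φ).subst x y = σ.foldr (dig z) (φ.subst x y)
  | [] => rfl
  | b :: σ => by
    rw [List.foldr_cons, List.foldr_cons, subst_dig b _ h0 h1 hz, subst_digs φ h0 h1 hz σ]

theorem freeFor_dig {z x y : ℕ} (b : Bool) {φ : Fml} (h0 : y ≠ 0) (h1 : y ≠ 1) (hz : y ≠ z)
    (h : φ.FreeFor y x) : (dig z b φ).FreeFor y x := by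
  cases b
  · simp only [dig, Bool.false_eq_true, if_false]
    exact .inr (.inr ⟨Ne.symm h0, trivial, .inr (.inr ⟨Ne.symm hz, trivial, h⟩)⟩)
  · simp only [dig, if_true]
    exact .inr (.inr ⟨Ne.symm h0, trivial, .inr (.inr ⟨Ne.symm h1, trivial,
      .inr (.inr ⟨Ne.symm hz, trivial, h⟩)⟩)⟩)

theorem freeFor_digs {z x y : ℕ} {φ : Fml} (h0 : y ≠ 0) (h1 : y ≠ 1) (hz : y ≠ z)
    (h : φ.FreeFor y x) : ∀ σ : List Bool, (σ.foldr (dig z) φ).FreeFor y x
  | [] => h
  | b :: σ => freeFor_dig b h0 h1 hz (freeFor_digs h0 h1 hz h σ)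

/-! ### computation of substitutions -/

section

variable (x y : ℕ)

theorem sb_bot : (Fm.bot : Fml).subst x y = .bot := rfl
theorem sb_eq (u v : ℕ) : (Fm.eq u v : Fml).subst x y = .eq (ren x y u) (ren x y v) := rfl
theorem sb_zero (u : ℕ) : (Fm.zero u : Fml).subst x y = .zero (ren x y u) := rfl
theorem sb_succ (u v : ℕ) : (Fm.succ u v : Fml).subst x y = .succ (ren x y u) (ren x y v) := rfl
theorem sb_add (u v w : ℕ) :
    (Fm.add u v w : Fml).subst x y = .add (ren x y u) (ren x y v) (ren x y w) := rfl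
theorem sb_R (a b c : ℕ) : (Rf a b c).subst x y = Rf (ren x y a) (ren x y b) (ren x y c) := rfl
theorem sb_E (a b c : ℕ) : (Ew a b c).subst x y = Ew (ren x y a) (ren x y b) (ren x y c) := rfl
theorem sb_imp (φ ψ : Fml) : (φ.imp ψ).subst x y = (φ.subst x y).imp (ψ.subst x y) := rfl
theorem sb_neg (φ : Fml) : (φ.neg).subst x y = (φ.subst x y).neg := rfl
theorem sb_all {u : ℕ} (φ : Fml) (h : u ≠ x) :
    (Fm.all u φ).subst x y = .all u (φ.subst x y) := by
  simp only [Fm.subst, if_neg h]

theorem sb_Wn {a : ℕ} (h1 : 33 ≠ x) (h2 : 35 ≠ x) (h3 : 37 ≠ x) :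
    (Wn a).subst x y = Wn (ren x y a) := by
  simp only [Wn, col, lt, Fm.subst, if_neg h1, if_neg h2, if_neg h3, ren_ne y h1, ren_ne y h2,
    ren_ne y h3]

end

theorem ff_Wn {a x y : ℕ} (h1 : y ≠ 33) (h2 : y ≠ 35) (h3 : y ≠ 37) : (Wn a).FreeFor y x :=
  .inr (.inr ⟨Ne.symm h1, .inr (.inr ⟨Ne.symm h2, .inr (.inr ⟨Ne.symm h3, trivial, trivial⟩)⟩)⟩)

/-! ### the axioms -/

/-- the axioms are available and small, the variables have names between `40` and `V` -/
structure Av (p : Pr) (V A : ℕ) : Prop where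
  ax : ∀ φ ∈ WF, φ ∈ p.Γ
  sz : ∀ φ ∈ WF, sz φ ≤ A
  le : A * (V + 1) ^ 6 ≤ p.s

theorem Av.one {V A : ℕ} (h : Av p V A) : A ≤ p.s := by
  have h1 := h.le
  have h2 : 1 ≤ (V + 1) ^ 6 := Nat.one_le_pow _ _ (by omega)
  nlinarith

/-- an axiom in a context -/
theorem Av.get {V A : ℕ} (h : Av p V A) (hΔ : Cx p Δ) (hφ : φ ∈ WF) : Dc p Δ (1 + p.c) φ :=
  Dc.ax hΔ ((h.sz φ hφ).trans h.one) (h.ax φ hφ)

/-- a derivation of a formula of size at most `A (V + 1) ^ k` -/
def Dk (p : Pr) (Δ : List Fml) (V A k N : ℕ) (φ : Fml) : Prop :=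
  Dc p Δ N φ ∧ J6H49.BC.sz φ ≤ A * (V + 1) ^ k

theorem Av.al {V A k x y : ℕ} (ha : Av p V A)
    (h : Dk p Δ V A k N (.all x φ)) (hk : k + 1 ≤ 6) (hy : y ≤ V)
    (hf : φ.FreeFor y x) : Dk p Δ V A (k + 1) (N + p.c) (φ.subst x y) := by
  obtain ⟨h, hb⟩ := h
  have hb' : J6H49.BC.sz (φ.subst x y) ≤ A * (V + 1) ^ (k + 1) := by
    rw [sz_all] at hb
    have h1 := sz_subst_le x y φ
    rw [pow_succ, ← mul_assoc]
    calc J6H49.BC.sz (φ.subst x y) ≤ J6H49.BC.sz φ * (y + 1) := h1
      _ ≤ (A * (V + 1) ^ k) * (V + 1) := Nat.mul_le_mul (by omega) (by omega)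
  refine ⟨h.allE y hf (le_trans hb' (le_trans (Nat.mul_le_mul_left _ ?_) ha.le)), hb'⟩
  exact Nat.pow_le_pow_right (by omega) hk

theorem Av.get' {V A : ℕ} (h : Av p V A) (hΔ : Cx p Δ) (hφ : φ ∈ WF) :
    Dk p Δ V A 0 (1 + p.c) φ :=
  ⟨h.get hΔ hφ, by rw [pow_zero, mul_one]; exact h.sz φ hφ⟩

theorem Pr.one_le (p : Pr) : 1 ≤ p.c := by have := p.le_c; omega

section

variable {V A a b c d e f : ℕ}

theorem Av.x1 (h : Av p V A) (a0 : 40 ≤ a) (b0 : 40 ≤ b) (c0 : 40 ≤ c) (a1 : a ≤ V)
    (b1 : b ≤ V) (c1 : c ≤ V) (h1 : Dc p Δ N (.zero a)) (h2 : Dc p Δ N' (.zero b))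
    (h3 : Dc p Δ N'' (.succ b c)) : Dc p Δ (N + N' + N'' + 8 * p.c) (Rf a b c) := by
  have k1 := h.get' (φ := .all 15 (.all 17 (.all 19 (.imp (.zero 15) (.imp (.zero 17)
    (.imp (.succ 17 19) (Rf 15 17 19))))))) h1.cx (by simp [WF, EX])
  have k2 := h.al (y := a) k1 (by omega) a1 (by
    repeat' (first | exact trivial | exact ff_Wn (by omega) (by omega) (by omega) |
      (refine freeFor_digs (by omega) (by omega) (by omega) ?_ _) |
      (refine freeFor_dig _ (by omega) (by omega) (by omega) ?_) |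
      refine And.intro ?_ ?_ | refine Or.inr (Or.inr (And.intro (by omega) ?_))))
  simp (disch := omega) only [sb_bot, sb_eq, sb_zero, sb_succ, sb_add, sb_R, sb_E, sb_imp,
    sb_neg, sb_all, sb_Wn, subst_digs, subst_dig, ren_ne, ren_same] at k2
  have k3 := h.al (y := b) k2 (by omega) b1 (by
    repeat' (first | exact trivial | exact ff_Wn (by omega) (by omega) (by omega) |
      (refine freeFor_digs (by omega) (by omega) (by omega) ?_ _) |
      (refine freeFor_dig _ (by omega) (by omega) (by omega) ?_) |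
      refine And.intro ?_ ?_ | refine Or.inr (Or.inr (And.intro (by omega) ?_))))
  simp (disch := omega) only [sb_bot, sb_eq, sb_zero, sb_succ, sb_add, sb_R, sb_E, sb_imp,
    sb_neg, sb_all, sb_Wn, subst_digs, subst_dig, ren_ne, ren_same] at k3
  have k4 := h.al (y := c) k3 (by omega) c1 (by
    repeat' (first | exact trivial | exact ff_Wn (by omega) (by omega) (by omega) |
      (refine freeFor_digs (by omega) (by omega) (by omega) ?_ _) |
      (refine freeFor_dig _ (by omega) (by omega) (by omega) ?_) |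
      refine And.intro ?_ ?_ | refine Or.inr (Or.inr (And.intro (by omega) ?_))))
  simp (disch := omega) only [sb_bot, sb_eq, sb_zero, sb_succ, sb_add, sb_R, sb_E, sb_imp,
    sb_neg, sb_all, sb_Wn, subst_digs, subst_dig, ren_ne, ren_same] at k4
  have := p.one_le
  exact (((k4.1.mp h1).mp h2).mp h3).up (by omega)

theorem Av.x2 (h : Av p V A) (a0 : 40 ≤ a) (b0 : 40 ≤ b) (c0 : 40 ≤ c) (d0 : 40 ≤ d)
    (e0 : 40 ≤ e) (f0 : 40 ≤ f) (a1 : a ≤ V) (b1 : b ≤ V) (c1 : c ≤ V) (d1 : d ≤ V) (e1 : e ≤ V)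
    (f1 : f ≤ V) (h1 : Dc p Δ N (Rf a b c)) (h2 : Dc p Δ N' (.succ a d))
    (h3 : Dc p Δ N'' (.succ c e)) (h4 : Dc p Δ N3 (.succ e f)) :
    Dc p Δ (N + N' + N'' + N3 + 12 * p.c) (Rf d b f) := by
  have k1 := h.get' (φ := .all 15 (.all 17 (.all 19 (.all 21 (.all 23 (.all 25
    (.imp (Rf 15 17 19) (.imp (.succ 15 21)
    (.imp (.succ 19 23) (.imp (.succ 23 25) (Rf 21 17 25))))))))))) h1.cx (by simp [WF, EX])
  have k2 := h.al (y := a) k1 (by omega) a1 (by
    repeat' (first | exact trivial | exact ff_Wn (by omega) (by omega) (by omega) |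
      (refine freeFor_digs (by omega) (by omega) (by omega) ?_ _) |
      (refine freeFor_dig _ (by omega) (by omega) (by omega) ?_) |
      refine And.intro ?_ ?_ | refine Or.inr (Or.inr (And.intro (by omega) ?_))))
  simp (disch := omega) only [sb_bot, sb_eq, sb_zero, sb_succ, sb_add, sb_R, sb_E, sb_imp,
    sb_neg, sb_all, sb_Wn, subst_digs, subst_dig, ren_ne, ren_same] at k2
  have k3 := h.al (y := b) k2 (by omega) b1 (by
    repeat' (first | exact trivial | exact ff_Wn (by omega) (by omega) (by omega) |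
      (refine freeFor_digs (by omega) (by omega) (by omega) ?_ _) |
      (refine freeFor_dig _ (by omega) (by omega) (by omega) ?_) |
      refine And.intro ?_ ?_ | refine Or.inr (Or.inr (And.intro (by omega) ?_))))
  simp (disch := omega) only [sb_bot, sb_eq, sb_zero, sb_succ, sb_add, sb_R, sb_E, sb_imp,
    sb_neg, sb_all, sb_Wn, subst_digs, subst_dig, ren_ne, ren_same] at k3
  have k4 := h.al (y := c) k3 (by omega) c1 (by
    repeat' (first | exact trivial | exact ff_Wn (by omega) (by omega) (by omega) |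
      (refine freeFor_digs (by omega) (by omega) (by omega) ?_ _) |
      (refine freeFor_dig _ (by omega) (by omega) (by omega) ?_) |
      refine And.intro ?_ ?_ | refine Or.inr (Or.inr (And.intro (by omega) ?_))))
  simp (disch := omega) only [sb_bot, sb_eq, sb_zero, sb_succ, sb_add, sb_R, sb_E, sb_imp,
    sb_neg, sb_all, sb_Wn, subst_digs, subst_dig, ren_ne, ren_same] at k4
  have k5 := h.al (y := d) k4 (by omega) d1 (by
    repeat' (first | exact trivial | exact ff_Wn (by omega) (by omega) (by omega) |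
      (refine freeFor_digs (by omega) (by omega) (by omega) ?_ _) |
      (refine freeFor_dig _ (by omega) (by omega) (by omega) ?_) |
      refine And.intro ?_ ?_ | refine Or.inr (Or.inr (And.intro (by omega) ?_))))
  simp (disch := omega) only [sb_bot, sb_eq, sb_zero, sb_succ, sb_add, sb_R, sb_E, sb_imp,
    sb_neg, sb_all, sb_Wn, subst_digs, subst_dig, ren_ne, ren_same] at k5
  have k6 := h.al (y := e) k5 (by omega) e1 (by
    repeat' (first | exact trivial | exact ff_Wn (by omega) (by omega) (by omega) |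
      (refine freeFor_digs (by omega) (by omega) (by omega) ?_ _) |
      (refine freeFor_dig _ (by omega) (by omega) (by omega) ?_) |
      refine And.intro ?_ ?_ | refine Or.inr (Or.inr (And.intro (by omega) ?_))))
  simp (disch := omega) only [sb_bot, sb_eq, sb_zero, sb_succ, sb_add, sb_R, sb_E, sb_imp,
    sb_neg, sb_all, sb_Wn, subst_digs, subst_dig, ren_ne, ren_same] at k6
  have k7 := h.al (y := f) k6 (by omega) f1 (by
    repeat' (first | exact trivial | exact ff_Wn (by omega) (by omega) (by omega) |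
      (refine freeFor_digs (by omega) (by omega) (by omega) ?_ _) |
      (refine freeFor_dig _ (by omega) (by omega) (by omega) ?_) |
      refine And.intro ?_ ?_ | refine Or.inr (Or.inr (And.intro (by omega) ?_))))
  simp (disch := omega) only [sb_bot, sb_eq, sb_zero, sb_succ, sb_add, sb_R, sb_E, sb_imp,
    sb_neg, sb_all, sb_Wn, subst_digs, subst_dig, ren_ne, ren_same] at k7
  have := p.one_le
  exact ((((k7.1.mp h1).mp h2).mp h3).mp h4).up (by omega)

theorem Av.x3 (h : Av p V A) (a0 : 40 ≤ a) (b0 : 40 ≤ b) (c0 : 40 ≤ c) (d0 : 40 ≤ d)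
    (e0 : 40 ≤ e) (a1 : a ≤ V) (b1 : b ≤ V) (c1 : c ≤ V) (d1 : d ≤ V) (e1 : e ≤ V)
    (h1 : Dc p Δ N (Rf a b c)) (h2 : Dc p Δ N' (.succ b d))
    (h3 : Dc p Δ N'' (.succ c e)) :
    Dc p Δ (N + N' + N'' + 10 * p.c) (Rf a d e) := by
  have k1 := h.get' (φ := .all 15 (.all 17 (.all 19 (.all 21 (.all 23 (.imp (Rf 15 17 19)
    (.imp (.succ 17 21) (.imp (.succ 19 23) (Rf 15 21 23))))))))) h1.cx (by simp [WF, EX])
  have k2 := h.al (y := a) k1 (by omega) a1 (by
    repeat' (first | exact trivial | exact ff_Wn (by omega) (by omega) (by omega) |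
      (refine freeFor_digs (by omega) (by omega) (by omega) ?_ _) |
      (refine freeFor_dig _ (by omega) (by omega) (by omega) ?_) |
      refine And.intro ?_ ?_ | refine Or.inr (Or.inr (And.intro (by omega) ?_))))
  simp (disch := omega) only [sb_bot, sb_eq, sb_zero, sb_succ, sb_add, sb_R, sb_E, sb_imp,
    sb_neg, sb_all, sb_Wn, subst_digs, subst_dig, ren_ne, ren_same] at k2
  have k3 := h.al (y := b) k2 (by omega) b1 (by
    repeat' (first | exact trivial | exact ff_Wn (by omega) (by omega) (by omega) |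
      (refine freeFor_digs (by omega) (by omega) (by omega) ?_ _) |
      (refine freeFor_dig _ (by omega) (by omega) (by omega) ?_) |
      refine And.intro ?_ ?_ | refine Or.inr (Or.inr (And.intro (by omega) ?_))))
  simp (disch := omega) only [sb_bot, sb_eq, sb_zero, sb_succ, sb_add, sb_R, sb_E, sb_imp,
    sb_neg, sb_all, sb_Wn, subst_digs, subst_dig, ren_ne, ren_same] at k3
  have k4 := h.al (y := c) k3 (by omega) c1 (by
    repeat' (first | exact trivial | exact ff_Wn (by omega) (by omega) (by omega) |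
      (refine freeFor_digs (by omega) (by omega) (by omega) ?_ _) |
      (refine freeFor_dig _ (by omega) (by omega) (by omega) ?_) |
      refine And.intro ?_ ?_ | refine Or.inr (Or.inr (And.intro (by omega) ?_))))
  simp (disch := omega) only [sb_bot, sb_eq, sb_zero, sb_succ, sb_add, sb_R, sb_E, sb_imp,
    sb_neg, sb_all, sb_Wn, subst_digs, subst_dig, ren_ne, ren_same] at k4
  have k5 := h.al (y := d) k4 (by omega) d1 (by
    repeat' (first | exact trivial | exact ff_Wn (by omega) (by omega) (by omega) |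
      (refine freeFor_digs (by omega) (by omega) (by omega) ?_ _) |
      (refine freeFor_dig _ (by omega) (by omega) (by omega) ?_) |
      refine And.intro ?_ ?_ | refine Or.inr (Or.inr (And.intro (by omega) ?_))))
  simp (disch := omega) only [sb_bot, sb_eq, sb_zero, sb_succ, sb_add, sb_R, sb_E, sb_imp,
    sb_neg, sb_all, sb_Wn, subst_digs, subst_dig, ren_ne, ren_same] at k5
  have k6 := h.al (y := e) k5 (by omega) e1 (by
    repeat' (first | exact trivial | exact ff_Wn (by omega) (by omega) (by omega) |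
      (refine freeFor_digs (by omega) (by omega) (by omega) ?_ _) |
      (refine freeFor_dig _ (by omega) (by omega) (by omega) ?_) |
      refine And.intro ?_ ?_ | refine Or.inr (Or.inr (And.intro (by omega) ?_))))
  simp (disch := omega) only [sb_bot, sb_eq, sb_zero, sb_succ, sb_add, sb_R, sb_E, sb_imp,
    sb_neg, sb_all, sb_Wn, subst_digs, subst_dig, ren_ne, ren_same] at k6
  have := p.one_le
  exact (((k6.1.mp h1).mp h2).mp h3).up (by omega)

/-- the digit one, for the variable `3` -/
theorem Av.x4 (h : Av p V A) (a0 : 40 ≤ a) (b0 : 40 ≤ b) (c0 : 40 ≤ c)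
    (a1 : a ≤ V) (b1 : b ≤ V) (c1 : c ≤ V)
    (h1 : Dc p Δ N (.zero a)) (h2 : Dc p Δ N' (Rf b a c)) :
    Dc p Δ (N + N' + 8 * p.c) (.all 3 (.imp (.eq 3 b) (dig 3 false (.eq 3 c)))) := by
  have k1 := h.get' (φ := .all 15 (.all 17 (.all 19 (.imp (.zero 15) (.imp (Rf 17 15 19)
    (.all 3 (.imp (.eq 3 17) (dig 3 false (.eq 3 19))))))))) h1.cx (by simp [WF, EX])
  have k2 := h.al (y := a) k1 (by omega) a1 (by
    repeat' (first | exact trivial | exact ff_Wn (by omega) (by omega) (by omega) |
      (refine freeFor_digs (by omega) (by omega) (by omega) ?_ _) |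
      (refine freeFor_dig _ (by omega) (by omega) (by omega) ?_) |
      refine And.intro ?_ ?_ | refine Or.inr (Or.inr (And.intro (by omega) ?_))))
  simp (disch := omega) only [sb_bot, sb_eq, sb_zero, sb_succ, sb_add, sb_R, sb_E, sb_imp,
    sb_neg, sb_all, sb_Wn, subst_digs, subst_dig, ren_ne, ren_same] at k2
  have k3 := h.al (y := b) k2 (by omega) b1 (by
    repeat' (first | exact trivial | exact ff_Wn (by omega) (by omega) (by omega) |
      (refine freeFor_digs (by omega) (by omega) (by omega) ?_ _) |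
      (refine freeFor_dig _ (by omega) (by omega) (by omega) ?_) |
      refine And.intro ?_ ?_ | refine Or.inr (Or.inr (And.intro (by omega) ?_))))
  simp (disch := omega) only [sb_bot, sb_eq, sb_zero, sb_succ, sb_add, sb_R, sb_E, sb_imp,
    sb_neg, sb_all, sb_Wn, subst_digs, subst_dig, ren_ne, ren_same] at k3
  have k4 := h.al (y := c) k3 (by omega) c1 (by
    repeat' (first | exact trivial | exact ff_Wn (by omega) (by omega) (by omega) |
      (refine freeFor_digs (by omega) (by omega) (by omega) ?_ _) |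
      (refine freeFor_dig _ (by omega) (by omega) (by omega) ?_) |
      refine And.intro ?_ ?_ | refine Or.inr (Or.inr (And.intro (by omega) ?_))))
  simp (disch := omega) only [sb_bot, sb_eq, sb_zero, sb_succ, sb_add, sb_R, sb_E, sb_imp,
    sb_neg, sb_all, sb_Wn, subst_digs, subst_dig, ren_ne, ren_same] at k4
  have := p.one_le
  exact ((k4.1.mp h1).mp h2).up (by omega)

/-- the digit two, for the variable `3` -/
theorem Av.x5 (h : Av p V A) (a0 : 40 ≤ a) (b0 : 40 ≤ b) (c0 : 40 ≤ c) (d0 : 40 ≤ d)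
    (a1 : a ≤ V) (b1 : b ≤ V) (c1 : c ≤ V) (d1 : d ≤ V)
    (h1 : Dc p Δ N (.zero a)) (h2 : Dc p Δ N' (Rf b a c)) (h3 : Dc p Δ N'' (.succ c d)) :
    Dc p Δ (N + N' + N'' + 9 * p.c) (.all 3 (.imp (.eq 3 b) (dig 3 true (.eq 3 d)))) := by
  have k1 := h.get' (φ := .all 15 (.all 17 (.all 19 (.all 21 (.imp (.zero 15)
    (.imp (Rf 17 15 19) (.imp (.succ 19 21)
    (.all 3 (.imp (.eq 3 17) (dig 3 true (.eq 3 21))))))))))) h1.cx (by simp [WF, EX])
  have k2 := h.al (y := a) k1 (by omega) a1 (by
    repeat' (first | exact trivial | exact ff_Wn (by omega) (by omega) (by omega) |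
      (refine freeFor_digs (by omega) (by omega) (by omega) ?_ _) |
      (refine freeFor_dig _ (by omega) (by omega) (by omega) ?_) |
      refine And.intro ?_ ?_ | refine Or.inr (Or.inr (And.intro (by omega) ?_))))
  simp (disch := omega) only [sb_bot, sb_eq, sb_zero, sb_succ, sb_add, sb_R, sb_E, sb_imp,
    sb_neg, sb_all, sb_Wn, subst_digs, subst_dig, ren_ne, ren_same] at k2
  have k3 := h.al (y := b) k2 (by omega) b1 (by
    repeat' (first | exact trivial | exact ff_Wn (by omega) (by omega) (by omega) |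
      (refine freeFor_digs (by omega) (by omega) (by omega) ?_ _) |
      (refine freeFor_dig _ (by omega) (by omega) (by omega) ?_) |
      refine And.intro ?_ ?_ | refine Or.inr (Or.inr (And.intro (by omega) ?_))))
  simp (disch := omega) only [sb_bot, sb_eq, sb_zero, sb_succ, sb_add, sb_R, sb_E, sb_imp,
    sb_neg, sb_all, sb_Wn, subst_digs, subst_dig, ren_ne, ren_same] at k3
  have k4 := h.al (y := c) k3 (by omega) c1 (by
    repeat' (first | exact trivial | exact ff_Wn (by omega) (by omega) (by omega) |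
      (refine freeFor_digs (by omega) (by omega) (by omega) ?_ _) |
      (refine freeFor_dig _ (by omega) (by omega) (by omega) ?_) |
      refine And.intro ?_ ?_ | refine Or.inr (Or.inr (And.intro (by omega) ?_))))
  simp (disch := omega) only [sb_bot, sb_eq, sb_zero, sb_succ, sb_add, sb_R, sb_E, sb_imp,
    sb_neg, sb_all, sb_Wn, subst_digs, subst_dig, ren_ne, ren_same] at k4
  have k5 := h.al (y := d) k4 (by omega) d1 (by
    repeat' (first | exact trivial | exact ff_Wn (by omega) (by omega) (by omega) |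
      (refine freeFor_digs (by omega) (by omega) (by omega) ?_ _) |
      (refine freeFor_dig _ (by omega) (by omega) (by omega) ?_) |
      refine And.intro ?_ ?_ | refine Or.inr (Or.inr (And.intro (by omega) ?_))))
  simp (disch := omega) only [sb_bot, sb_eq, sb_zero, sb_succ, sb_add, sb_R, sb_E, sb_imp,
    sb_neg, sb_all, sb_Wn, subst_digs, subst_dig, ren_ne, ren_same] at k5
  have := p.one_le
  exact (((k5.1.mp h1).mp h2).mp h3).up (by omega)

/-- the beginning -/
theorem Av.x6 (h : Av p V A) (a0 : 40 ≤ a) (b0 : 40 ≤ b) (a1 : a ≤ V) (b1 : b ≤ V)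
    (h1 : Dc p Δ N (.zero a)) (h2 : Dc p Δ N' (.succ a b)) :
    Dc p Δ (N + N' + 8 * p.c)
      (.all 2 (.imp (.zero 2) ((pz 3).foldr (dig 2) (Ew a b 2)))) := by
  have k1 := h.get' (φ := .all 15 (.all 17 (.imp (.zero 15) (.imp (.succ 15 17) (.all 2
    (.imp (.zero 2) ((pz 3).foldr (dig 2) (Ew 15 17 2)))))))) h1.cx (by simp [WF, EX])
  have k2 := h.al (y := a) k1 (by omega) a1 (by
    repeat' (first | exact trivial | exact ff_Wn (by omega) (by omega) (by omega) |
      (refine freeFor_digs (by omega) (by omega) (by omega) ?_ _) |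
      (refine freeFor_dig _ (by omega) (by omega) (by omega) ?_) |
      refine And.intro ?_ ?_ | refine Or.inr (Or.inr (And.intro (by omega) ?_))))
  simp (disch := omega) only [sb_bot, sb_eq, sb_zero, sb_succ, sb_add, sb_R, sb_E, sb_imp,
    sb_neg, sb_all, sb_Wn, subst_digs, subst_dig, ren_ne, ren_same] at k2
  have k3 := h.al (y := b) k2 (by omega) b1 (by
    repeat' (first | exact trivial | exact ff_Wn (by omega) (by omega) (by omega) |
      (refine freeFor_digs (by omega) (by omega) (by omega) ?_ _) |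
      (refine freeFor_dig _ (by omega) (by omega) (by omega) ?_) |
      refine And.intro ?_ ?_ | refine Or.inr (Or.inr (And.intro (by omega) ?_))))
  simp (disch := omega) only [sb_bot, sb_eq, sb_zero, sb_succ, sb_add, sb_R, sb_E, sb_imp,
    sb_neg, sb_all, sb_Wn, subst_digs, subst_dig, ren_ne, ren_same] at k3
  have := p.one_le
  exact ((k3.1.mp h1).mp h2).up (by omega)

/-- one digit of `2 ^ (k + 1)` more -/
theorem Av.x7 (h : Av p V A) (a0 : 40 ≤ a) (b0 : 40 ≤ b) (c0 : 40 ≤ c) (d0 : 40 ≤ d)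
    (a1 : a ≤ V) (b1 : b ≤ V) (c1 : c ≤ V) (d1 : d ≤ V)
    (h1 : Dc p Δ N (.succ a c)) (h2 : Dc p Δ N' (Rf c b d)) :
    Dc p Δ (N + N' + 9 * p.c)
      (.all 2 (.imp (Ew a b 2) ((pd 3 false).foldr (dig 2) (Ew c d 2)))) := by
  have k1 := h.get' (φ := .all 15 (.all 17 (.all 19 (.all 21 (.imp (.succ 15 19)
    (.imp (Rf 19 17 21) (.all 2
    (.imp (Ew 15 17 2) ((pd 3 false).foldr (dig 2) (Ew 19 21 2)))))))))) h1.cx
    (by simp [WF, EX])
  have k2 := h.al (y := a) k1 (by omega) a1 (by
    repeat' (first | exact trivial | exact ff_Wn (by omega) (by omega) (by omega) |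
      (refine freeFor_digs (by omega) (by omega) (by omega) ?_ _) |
      (refine freeFor_dig _ (by omega) (by omega) (by omega) ?_) |
      refine And.intro ?_ ?_ | refine Or.inr (Or.inr (And.intro (by omega) ?_))))
  simp (disch := omega) only [sb_bot, sb_eq, sb_zero, sb_succ, sb_add, sb_R, sb_E, sb_imp,
    sb_neg, sb_all, sb_Wn, subst_digs, subst_dig, ren_ne, ren_same] at k2
  have k3 := h.al (y := b) k2 (by omega) b1 (by
    repeat' (first | exact trivial | exact ff_Wn (by omega) (by omega) (by omega) |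
      (refine freeFor_digs (by omega) (by omega) (by omega) ?_ _) |
      (refine freeFor_dig _ (by omega) (by omega) (by omega) ?_) |
      refine And.intro ?_ ?_ | refine Or.inr (Or.inr (And.intro (by omega) ?_))))
  simp (disch := omega) only [sb_bot, sb_eq, sb_zero, sb_succ, sb_add, sb_R, sb_E, sb_imp,
    sb_neg, sb_all, sb_Wn, subst_digs, subst_dig, ren_ne, ren_same] at k3
  have k4 := h.al (y := c) k3 (by omega) c1 (by
    repeat' (first | exact trivial | exact ff_Wn (by omega) (by omega) (by omega) |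
      (refine freeFor_digs (by omega) (by omega) (by omega) ?_ _) |
      (refine freeFor_dig _ (by omega) (by omega) (by omega) ?_) |
      refine And.intro ?_ ?_ | refine Or.inr (Or.inr (And.intro (by omega) ?_))))
  simp (disch := omega) only [sb_bot, sb_eq, sb_zero, sb_succ, sb_add, sb_R, sb_E, sb_imp,
    sb_neg, sb_all, sb_Wn, subst_digs, subst_dig, ren_ne, ren_same] at k4
  have k5 := h.al (y := d) k4 (by omega) d1 (by
    repeat' (first | exact trivial | exact ff_Wn (by omega) (by omega) (by omega) |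
      (refine freeFor_digs (by omega) (by omega) (by omega) ?_ _) |
      (refine freeFor_dig _ (by omega) (by omega) (by omega) ?_) |
      refine And.intro ?_ ?_ | refine Or.inr (Or.inr (And.intro (by omega) ?_))))
  simp (disch := omega) only [sb_bot, sb_eq, sb_zero, sb_succ, sb_add, sb_R, sb_E, sb_imp,
    sb_neg, sb_all, sb_Wn, subst_digs, subst_dig, ren_ne, ren_same] at k5
  have := p.one_le
  exact ((k5.1.mp h1).mp h2).up (by omega)

/-- the bound can be decreased -/
theorem Av.x8 (h : Av p V A) (a0 : 40 ≤ a) (b0 : 40 ≤ b) (c0 : 40 ≤ c)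
    (a1 : a ≤ V) (b1 : b ≤ V) (c1 : c ≤ V) (h1 : Dc p Δ N (.succ c b)) :
    Dc p Δ (N + 7 * p.c) (.all 2 (.imp (Ew a b 2) (Ew a c 2))) := by
  have k1 := h.get' (φ := .all 15 (.all 17 (.all 19 (.imp (.succ 19 17) (.all 2
    (.imp (Ew 15 17 2) (Ew 15 19 2))))))) h1.cx (by simp [WF, EX])
  have k2 := h.al (y := a) k1 (by omega) a1 (by
    repeat' (first | exact trivial | exact ff_Wn (by omega) (by omega) (by omega) |
      (refine freeFor_digs (by omega) (by omega) (by omega) ?_ _) |
      (refine freeFor_dig _ (by omega) (by omega) (by omega) ?_) |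
      refine And.intro ?_ ?_ | refine Or.inr (Or.inr (And.intro (by omega) ?_))))
  simp (disch := omega) only [sb_bot, sb_eq, sb_zero, sb_succ, sb_add, sb_R, sb_E, sb_imp,
    sb_neg, sb_all, sb_Wn, subst_digs, subst_dig, ren_ne, ren_same] at k2
  have k3 := h.al (y := b) k2 (by omega) b1 (by
    repeat' (first | exact trivial | exact ff_Wn (by omega) (by omega) (by omega) |
      (refine freeFor_digs (by omega) (by omega) (by omega) ?_ _) |
      (refine freeFor_dig _ (by omega) (by omega) (by omega) ?_) |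
      refine And.intro ?_ ?_ | refine Or.inr (Or.inr (And.intro (by omega) ?_))))
  simp (disch := omega) only [sb_bot, sb_eq, sb_zero, sb_succ, sb_add, sb_R, sb_E, sb_imp,
    sb_neg, sb_all, sb_Wn, subst_digs, subst_dig, ren_ne, ren_same] at k3
  have k4 := h.al (y := c) k3 (by omega) c1 (by
    repeat' (first | exact trivial | exact ff_Wn (by omega) (by omega) (by omega) |
      (refine freeFor_digs (by omega) (by omega) (by omega) ?_ _) |
      (refine freeFor_dig _ (by omega) (by omega) (by omega) ?_) |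
      refine And.intro ?_ ?_ | refine Or.inr (Or.inr (And.intro (by omega) ?_))))
  simp (disch := omega) only [sb_bot, sb_eq, sb_zero, sb_succ, sb_add, sb_R, sb_E, sb_imp,
    sb_neg, sb_all, sb_Wn, subst_digs, subst_dig, ren_ne, ren_same] at k4
  have := p.one_le
  exact (k4.1.mp h1).up (by omega)

/-- zero is unique -/
theorem Av.uz (h : Av p V A) (a0 : 40 ≤ a) (a1 : a ≤ V) (h1 : Dc p Δ N (.zero 3))
    (h2 : Dc p Δ N' (.zero a)) : Dc p Δ (N + N' + 6 * p.c) (.eq 3 a) := by
  have k1 := h.get' (φ := .all 0 (.all 1 ((Fm.zero 0).imp ((Fm.zero 1).imp (.eq 0 1))))) h1.cx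
    (by simp [WF, WB, robinson])
  have k2 := h.al (y := 3) k1 (by omega) (by omega) (by
    repeat' (first | exact trivial | exact ff_Wn (by omega) (by omega) (by omega) |
      (refine freeFor_digs (by omega) (by omega) (by omega) ?_ _) |
      (refine freeFor_dig _ (by omega) (by omega) (by omega) ?_) |
      refine And.intro ?_ ?_ | refine Or.inr (Or.inr (And.intro (by omega) ?_))))
  simp (disch := omega) only [sb_bot, sb_eq, sb_zero, sb_succ, sb_add, sb_R, sb_E, sb_imp,
    sb_neg, sb_all, sb_Wn, subst_digs, subst_dig, ren_ne, ren_same] at k2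
  have k3 := h.al (y := a) k2 (by omega) a1 (by
    repeat' (first | exact trivial | exact ff_Wn (by omega) (by omega) (by omega) |
      (refine freeFor_digs (by omega) (by omega) (by omega) ?_ _) |
      (refine freeFor_dig _ (by omega) (by omega) (by omega) ?_) |
      refine And.intro ?_ ?_ | refine Or.inr (Or.inr (And.intro (by omega) ?_))))
  simp (disch := omega) only [sb_bot, sb_eq, sb_zero, sb_succ, sb_add, sb_R, sb_E, sb_imp,
    sb_neg, sb_all, sb_Wn, subst_digs, subst_dig, ren_ne, ren_same] at k3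
  have := p.one_le
  exact ((k3.1.mp h1).mp h2).up (by omega)

end

end Pool.Agent.J6H58.MC
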