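import Pool.Agent.J6H58.MC.Eng
import Pool.Agent.J6H58.MC.Basic

/-!
# Short proofs: macros
-/

set_option autoImplicit false

namespace Pool.Agent.J6H58.MC

open Pool.Agent.TH672 (Fm varStr LogK ReplK Sw num digits)
open Pool.Agent.TH672.Form (ren)
open Pool.Agent.TH636.BC (Fml Step IsProof str strs Proves lt col)
open Pool.Agent.J6H49.BC (sz sz_bot sz_eq sz_zero sz_succ sz_op sz_imp sz_all sz_pos imps imps_nil
  imps_cons imps_append len_varStr)

variable {p : Pr} {Δ Δ' : List Fml} {N N' N'' : ℕ} {φ ψ : Fml}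

/-! ### substitutions -/

theorem freeFor_self (x : ℕ) : ∀ φ : Fml, φ.FreeFor x x := by
  intro φ
  induction φ with
  | imp φ ψ ih ih' => exact ⟨ih, ih'⟩
  | all u φ ih =>
    by_cases h : u = x
    · exact .inl h
    · exact .inr (.inr ⟨h, ih⟩)
  | _ => trivial

theorem ren_self (x u : ℕ) : ren x x u = u := by
  unfold ren
  split_ifs with h
  · exact h.symm
  · rfl

theorem subst_self (x : ℕ) : ∀ φ : Fml, φ.subst x x = φ := by
  intro φ
  induction φ with
  | bot => rfl
  | eq u v => simp only [Fm.subst, ren_self]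
  | zero u => simp only [Fm.subst, ren_self]
  | succ u v => simp only [Fm.subst, ren_self]
  | add u v w => simp only [Fm.subst, ren_self]
  | mul u v w => simp only [Fm.subst, ren_self]
  | op i a b c d => simp only [Fm.subst, ren_self]
  | imp φ ψ ih ih' => simp only [Fm.subst, ih, ih']
  | all u φ ih =>
    simp only [Fm.subst, ih]
    split_ifs <;> rfl

theorem freeFor_of_not_free {x y : ℕ} : ∀ {φ : Fml}, ¬ φ.Free x → φ.FreeFor y x := by
  intro φ
  induction φ with
  | imp φ ψ ih ih' =>
    intro h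
    exact ⟨ih fun h' => h (.inl h'), ih' fun h' => h (.inr h')⟩
  | all u φ ih =>
    intro h
    by_cases hu : u = x
    · exact .inl hu
    · exact .inr (.inl fun h' => h ⟨fun e => hu e.symm, h'⟩)
  | _ => intro _; trivial

theorem subst_id {x y : ℕ} {φ : Fml} (h : ¬ φ.Free x) : φ.subst x y = φ :=
  Pool.Agent.TH197.J1545.subst_id h

/-! ### sizes -/

@[simp] theorem sz_add (x y z : ℕ) : sz (.add x y z : Fml) = x + y + z + 7 := by
  simp only [sz, str, List.length_append, len_varStr, List.length_cons, List.length_nil]; omega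

theorem sz_dig (x : ℕ) (b : Bool) (φ : Fml) : sz (dig x b φ) ≤ sz φ + (4 * x + 49) := by
  cases b
  · simp only [dig, Bool.false_eq_true, if_false, sz_all, sz_imp, sz_add, sz_succ]; omega
  · simp only [dig, if_true, sz_all, sz_imp, sz_add, sz_succ]; omega

theorem sz_digs (x : ℕ) (φ : Fml) : ∀ σ : List Bool,
    sz (σ.foldr (dig x) φ) ≤ sz φ + σ.length * (4 * x + 49)
  | [] => by simp
  | b :: σ => by
    rw [List.foldr_cons, List.length_cons, Nat.succ_mul]
    have h1 := sz_dig x b (σ.foldr (dig x) φ)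
    have h2 := sz_digs x φ σ
    omega

/-! ### contexts -/

theorem Cx.snoc (h : Cx p Δ) (hl : Δ.length + 1 ≤ p.l) (hs : sz φ ≤ p.s) : Cx p (Δ ++ [φ]) := by
  refine ⟨by rw [List.length_append]; exact hl, fun g hg => ?_⟩
  rcases List.mem_append.1 hg with hg | hg
  · exact h.ctx g hg
  · rw [List.mem_singleton] at hg
    rw [hg]
    exact hs

/-- instantiation of a variable by itself -/
theorem Dc.inst {x : ℕ} (h : Dc p Δ N (.all x φ)) : Dc p Δ (N + p.c) φ := by
  have h1 := h.le
  rw [sz_all] at h1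
  have h2 := h.allE x (freeFor_self x φ) (by rw [subst_self]; omega)
  rw [subst_self] at h2
  exact h2

theorem Dc.last (h : Cx p (Δ ++ [φ])) : Dc p (Δ ++ [φ]) p.c φ := .hyp h (by simp)

/-- the universal quantifier with a hypothesis -/
theorem Dc.monoA {x u : ℕ} {X Y : Fml} (h : Dc p Δ N (.all x (X.imp Y)))
    (hf : ∀ g ∈ Δ, ¬ g.Free x) (hl : Δ.length + 2 ≤ p.l)
    (hs : sz X + sz Y + 8 * x + 8 * u + 100 ≤ p.s) :
    Dc p Δ (N + 8 * p.c)
      ((Fm.all x (.imp (.succ u x) X)).imp (Fm.all x (.imp (.succ u x) Y))) := by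
  have c1 : Cx p (Δ ++ [Fm.all x (.imp (.succ u x) X)]) := h.cx.snoc (by omega)
    (by simp only [sz_all, sz_imp, sz_succ]; omega)
  have c2 := c1.snoc (φ := .succ u x) (by simp only [List.length_append, List.length_singleton]; omega)
    (by simp only [sz_succ]; omega)
  have k1 : Dc p _ _ (Fm.imp (.succ u x) X) :=
    (Dc.hyp c2 (φ := Fm.all x (.imp (.succ u x) X)) (by simp)).inst
  have k2 := k1.mp (.last c2)
  have k3 := (h.sub (Δ' := Δ ++ [Fm.all x (.imp (.succ u x) X)] ++ [.succ u x])
    (fun g hg => by simp [hg]) c2).inst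
  have k4 := k3.mp k2
  have k5 := k4.impI (by simp only [sz_imp, sz_succ]; omega)
  have k6 := k5.allI (x := x) (fun g hg => by
    rcases List.mem_append.1 hg with hg | hg
    · exact hf g hg
    · rw [List.mem_singleton] at hg
      rw [hg]
      intro h
      exact h.1 rfl) (by simp only [sz_all, sz_imp, sz_succ]; omega)
  have k7 := k6.impI (by simp only [sz_all, sz_imp, sz_succ]; omega)
  exact k7.up (by omega)

theorem Dc.monoD {x : ℕ} {X Y : Fml} (b : Bool) (hx : 2 ≤ x) (h : Dc p Δ N (.all x (X.imp Y)))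
    (hf : ∀ g ∈ Δ, ¬ g.Free 0 ∧ ¬ g.Free 1 ∧ ¬ g.Free x) (hl : Δ.length + 3 ≤ p.l)
    (hs : 2 * (sz X + sz Y) + 20 * x + 200 ≤ p.s) :
    Dc p Δ (N + 30 * p.c) (.all x ((dig x b X).imp (dig x b Y))) := by
  have hfx : ∀ g ∈ Δ, ¬ g.Free x := fun g hg => (hf g hg).2.2
  cases b
  · have k7 := h.monoA (u := 0) hfx (by omega) (by omega)
    have e : ∀ Z : Fml, dig x false Z =
        Fm.all 0 (.imp (.add x x 0) (.all x (.imp (.succ 0 x) Z))) := fun Z => by simp [dig]
    rw [e, e]
    have c1 : Cx p (Δ ++ [Fm.all 0 (.imp (.add x x 0) (.all x (.imp (.succ 0 x) X)))]) :=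
      h.cx.snoc (by omega) (by simp only [sz_all, sz_imp, sz_succ, sz_add]; omega)
    have c2 := c1.snoc (φ := .add x x 0)
      (by simp only [List.length_append, List.length_singleton]; omega)
      (by simp only [sz_add]; omega)
    have k8 := ((Dc.hyp c2
      (φ := Fm.all 0 (.imp (.add x x 0) (.all x (.imp (.succ 0 x) X)))) (by simp)).inst).mp
        (.last c2)
    have k9 := (k7.sub (fun g hg => by simp [hg]) c2).mp k8
    have k10 := k9.impI (by simp only [sz_all, sz_imp, sz_succ, sz_add]; omega)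
    have k11 := k10.allI (x := 0) (fun g hg => by
      rcases List.mem_append.1 hg with hg | hg
      · exact (hf g hg).1
      · rw [List.mem_singleton] at hg
        rw [hg]
        intro h
        exact h.1 rfl) (by simp only [sz_all, sz_imp, sz_succ, sz_add]; omega)
    have k12 := k11.impI (by simp only [sz_all, sz_imp, sz_succ, sz_add]; omega)
    have k13 := k12.allI hfx (by simp only [sz_all, sz_imp, sz_succ, sz_add]; omega)
    exact k13.up (by omega)
  · have k7 := h.monoA (u := 1) hfx (by omega) (by omega)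
    have e : ∀ Z : Fml, dig x true Z =
        Fm.all 0 (.imp (.add x x 0) (.all 1 (.imp (.succ 0 1) (.all x (.imp (.succ 1 x) Z))))) :=
      fun Z => by simp [dig]
    rw [e, e]
    have c1 : Cx p (Δ ++ [Fm.all 0 (.imp (.add x x 0)
        (.all 1 (.imp (.succ 0 1) (.all x (.imp (.succ 1 x) X)))))]) :=
      h.cx.snoc (by omega) (by simp only [sz_all, sz_imp, sz_succ, sz_add]; omega)
    have c2 := c1.snoc (φ := .add x x 0)
      (by simp only [List.length_append, List.length_singleton]; omega)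
      (by simp only [sz_add]; omega)
    have c3 := c2.snoc (φ := .succ 0 1)
      (by simp only [List.length_append, List.length_singleton]; omega)
      (by simp only [sz_succ]; omega)
    have k8 := ((Dc.hyp c3 (φ := Fm.all 0 (.imp (.add x x 0)
        (.all 1 (.imp (.succ 0 1) (.all x (.imp (.succ 1 x) X)))))) (by simp)).inst).mp
        (.hyp c3 (φ := .add x x 0) (by simp))
    have k8' := k8.inst.mp (.last c3)
    have k9 := (k7.sub (fun g hg => by simp [hg]) c3).mp k8'
    have k10 := k9.impI (by simp only [sz_all, sz_imp, sz_succ, sz_add]; omega)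
    have k10' := k10.allI (x := 1) (fun g hg => by
      rcases List.mem_append.1 hg with hg | hg
      · rcases List.mem_append.1 hg with hg | hg
        · exact (hf g hg).2.1
        · rw [List.mem_singleton] at hg
          rw [hg]
          simp only [Fm.Free]
          omega
      · rw [List.mem_singleton] at hg
        rw [hg]
        simp only [Fm.Free]
        omega) (by simp only [sz_all, sz_imp, sz_succ, sz_add]; omega)
    have k10'' := k10'.impI (by simp only [sz_all, sz_imp, sz_succ, sz_add]; omega)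
    have k11 := k10''.allI (x := 0) (fun g hg => by
      rcases List.mem_append.1 hg with hg | hg
      · exact (hf g hg).1
      · rw [List.mem_singleton] at hg
        rw [hg]
        intro h
        exact h.1 rfl) (by simp only [sz_all, sz_imp, sz_succ, sz_add]; omega)
    have k12 := k11.impI (by simp only [sz_all, sz_imp, sz_succ, sz_add]; omega)
    have k13 := k12.allI hfx (by simp only [sz_all, sz_imp, sz_succ, sz_add]; omega)
    exact k13.up (by omega)

theorem Dc.trA {x : ℕ} {X Y Z : Fml} (h1 : Dc p Δ N (.all x (X.imp Y)))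
    (h2 : Dc p Δ N' (.all x (Y.imp Z))) (hf : ∀ g ∈ Δ, ¬ g.Free x) (hl : Δ.length + 1 ≤ p.l)
    (hs : sz X + sz Z + x + 9 ≤ p.s) : Dc p Δ (N + N' + 8 * p.c) (.all x (X.imp Z)) := by
  have c1 : Cx p (Δ ++ [X]) := h1.cx.snoc hl (by omega)
  have k1 := (h1.sub (Δ' := Δ ++ [X]) (fun g hg => by simp [hg]) c1).inst
  have k2 := (h2.sub (Δ' := Δ ++ [X]) (fun g hg => by simp [hg]) c1).inst
  have k3 := k2.mp (k1.mp (.last c1))
  have k4 := k3.impI (by simp only [sz_imp]; omega)
  have k5 := k4.allI hf (by simp only [sz_all, sz_imp]; omega)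
  exact k5.up (by omega)

theorem Dc.monoL {x : ℕ} {X Y : Fml} (hx : 2 ≤ x) (h : Dc p Δ N (.all x (X.imp Y)))
    (hf : ∀ g ∈ Δ, ¬ g.Free 0 ∧ ¬ g.Free 1 ∧ ¬ g.Free x) (hl : Δ.length + 3 ≤ p.l) :
    ∀ σ : List Bool, 2 * (sz X + sz Y) + 4 * (σ.length * (4 * x + 49)) + 20 * x + 200 ≤ p.s →
    Dc p Δ (N + σ.length * (30 * p.c)) (.all x ((σ.foldr (dig x) X).imp (σ.foldr (dig x) Y)))
  | [], _ => by simpa using h
  | b :: σ, hs => by
    rw [List.length_cons, Nat.add_mul σ.length 1, Nat.one_mul] at hs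
    have h1 := Dc.monoL hx h hf hl σ (by omega)
    have h2 := sz_digs x X σ
    have h3 := sz_digs x Y σ
    have h4 := h1.monoD b hx hf hl (by omega)
    rw [List.foldr_cons, List.foldr_cons, List.length_cons, Nat.add_mul σ.length 1, Nat.one_mul]
    exact h4.up (by omega)

/-- reading a string -/
theorem Dc.block {x : ℕ} {Q Q' R : Fml} {σ : List Bool} (hx : 2 ≤ x)
    (h1 : Dc p Δ N (.all x (Q.imp (σ.foldr (dig x) Q'))))
    (h2 : Dc p Δ N' (.all x (Q'.imp R)))
    (hf : ∀ g ∈ Δ, ¬ g.Free 0 ∧ ¬ g.Free 1 ∧ ¬ g.Free x) (hl : Δ.length + 3 ≤ p.l)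
    (hs : sz Q + 2 * (sz Q' + sz R) + 4 * (σ.length * (4 * x + 49)) + 20 * x + 200 ≤ p.s) :
    Dc p Δ (N + N' + σ.length * (30 * p.c) + 8 * p.c) (.all x (Q.imp (σ.foldr (dig x) R))) := by
  have h3 := h2.monoL hx hf hl σ (by omega)
  have h4 := sz_digs x R σ
  have h5 := h1.trA h3 (fun g hg => (hf g hg).2.2) (by omega) (by omega)
  exact h5.up (by omega)

end Pool.Agent.J6H58.MC
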