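import Pool.Agent.J6H58.MC.Dgt
import Pool.Agent.J6H49.BC.Asm0
import Pool.Agent.J6H77.BC.Cons

/-!
# Short proofs: assembly
-/

set_option autoImplicit false

namespace Pool.Agent.J6H58.MC

open Pool.Agent.TH672 (Fm varStr LogK ReplK Sw num digits)
open Pool.Agent.TH672.Form (ren)
open Pool.Agent.TH636.BC (Fml Step IsProof str strs Proves lt col robinson)
open Pool.Agent.J6H49.BC (sz sz_bot sz_eq sz_zero sz_succ sz_op sz_imp sz_all sz_pos imps imps_nil
  imps_cons imps_append len_varStr WB XX Wn dn chain Seg Dv PF)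
open Pool.Agent.TH197.J1545 (num_snoc num_app digits_num)

variable {p : Pr} {Δ Δ' : List Fml} {N N' N'' N3 V A n m M : ℕ} {φ ψ : Fml}
  {σ : List Bool} {X Z : Fml}

theorem sz_Wn (a : ℕ) : sz (Wn a) = a + a + a + 300 + 0 * a ∨ sz (Wn a) ≤ 3 * a + 1000 := by
  right
  simp only [Wn, col, lt, sz_all, sz_imp, sz_op]
  omega

/-- the first claim -/
theorem Hs.base (h : Hs p Δ V A M σ X n) (hX : ∀ x, X.Free x → x = 2 ∨ x = 3)
    (hn : n ≤ M) (hm : m ≤ M) (h3 : Fm.eq 3 (dn m) ∈ Δ)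
    (hTh : Dc p Δ N (Th σ X)) (hA : sz (Th σ X) ≤ A)
    (hW : Dc p Δ N' (Fm.neg (Wn (dn m)))) :
    Dc p Δ (N + N' + 6 * p.c) (.all 2 (.imp (Ew (dn n) (dn m) 2) (Rem σ X 0))) := by
  have k1 : Dk p Δ V A 0 N (Th σ X) := ⟨hTh, by rw [pow_zero, mul_one]; exact hA⟩
  unfold Th at k1
  have hX15 : ¬ X.Free 15 := fun h => by have := hX 15 h; omega
  have hX17 : ¬ X.Free 17 := fun h => by have := hX 17 h; omega
  have a0 := dn_ge n
  have b0 := dn_ge m
  have k2 := h.av.al (y := dn n) k1 (by omega) (h.dn_le hn) (by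
    repeat' (first | exact trivial | exact ff_Wn (by omega) (by omega) (by omega) |
      exact freeFor_of_not_free hX15 |
      (refine freeFor_digs (by omega) (by omega) (by omega) ?_ _) |
      refine And.intro ?_ ?_ | refine Or.inr (Or.inr (And.intro (by omega) ?_))))
  simp (disch := omega) only [sb_eq, sb_E, sb_imp,
    sb_neg, sb_all, sb_Wn, subst_digs, ren_ne, ren_same, subst_id hX15] at k2
  have k3 := h.av.al (y := dn m) k2 (by omega) (h.dn_le hm) (by
    repeat' (first | exact trivial | exact ff_Wn (by omega) (by omega) (by omega) |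
      exact freeFor_of_not_free hX17 |
      (refine freeFor_digs (by omega) (by omega) (by omega) ?_ _) |
      refine And.intro ?_ ?_ | refine Or.inr (Or.inr (And.intro (by omega) ?_))))
  simp (disch := omega) only [sb_eq, sb_E, sb_imp,
    sb_neg, sb_all, sb_Wn, subst_digs, ren_ne, ren_same, subst_id hX17] at k3
  have k4 := ((k3.1.mp hW).inst).mp (.hyp h.cx h3)
  rw [Rem_zero]
  exact k4.up (by omega)

theorem PF.mono' {f : ℕ → ℕ} (hf : PF f) : Monotone f := by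
  obtain ⟨q, hq⟩ := hf
  intro a b hab
  rw [← hq, ← hq, Polynomial.eval_eq_sum_range, Polynomial.eval_eq_sum_range]
  exact Finset.sum_le_sum fun i _ => Nat.mul_le_mul_left _ (Nat.pow_le_pow_left hab i)

theorem PF.comp' {f g : ℕ → ℕ} (hf : PF f) (hg : PF g) : PF fun n => f (g n) := by
  obtain ⟨a, ha⟩ := hf
  obtain ⟨b, hb⟩ := hg
  exact ⟨a.comp b, fun n => by rw [Polynomial.eval_comp, hb, ha]⟩

theorem seg_isProof {Γ : List Fml} : ∀ {π : List Fml}, Seg Γ [] π → IsProof Γ π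
  | [], _ => trivial
  | φ :: π, ⟨h1, h2⟩ => ⟨seg_isProof h1, by rwa [List.append_nil] at h2⟩

theorem Dw.of_dv {Γ : List Fml} {K L N : ℕ} {φ : Fml} (h : Dv Γ K L [] N φ) : Dw Γ L N φ := by
  obtain ⟨π, h1, h2, h3, h4⟩ := h
  exact ⟨π, seg_isProof h1, h2, fun ψ hψ => (h3 ψ hψ).2, by rwa [List.append_nil] at h4⟩

theorem closed_final {c : ℕ} (hX : ∀ x, X.Free x → x = 2 ∨ x = 3) :
    (dnum 3 m (dnum 2 c X)).Closed := by
  intro x hx
  obtain ⟨h1, h2⟩ := free_dnum hx
  obtain ⟨h3, h4⟩ := free_dnum h2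
  have := hX x h4
  omega

/-- the core of the assembly -/
theorem short_core {G : List Fml} (hG : ∀ φ ∈ WF, φ ∈ G) (hX : ∀ x, X.Free x → x = 2 ∨ x = 3)
    {L l s NT N1 : ℕ} (hL : 1000 * ((l + 1) * (s + 4) + 1) ≤ L)
    (hM : M = (n + 1) ^ 2) (hV : V = 6 * M + 100) (hl : l = M + 10)
    (hA : ∀ φ ∈ WF, sz φ ≤ A) (hA' : sz (Th σ X) ≤ A)
    (hs : s = A * (V + 1) ^ 6 + 4 * (sz X + σ.length * 57 + n * 2451 + 1200) + 8 * V + 200 * M
      + 30000)
    (hT : Dw G L NT (Th σ X)) (hm : m ≤ M)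
    (hW : Dw G L N1 (imps (chain m ++ [Wn (dn m)]) .bot)) :
    Dw G L (NT + N1 + (M + 1) * ((M + 1) * (2400 * (100 * (l + 1) ^ 2))))
      (dnum 3 m (dnum 2 (num (Str2 σ n)) X)) := by
  obtain ⟨p, hp⟩ : ∃ p : Pr, p = ⟨G, L, l, s, hL⟩ := ⟨_, rfl⟩
  have pG : p.Γ = G := by rw [hp]
  have pL : p.L = L := by rw [hp]
  have pl : p.l = l := by rw [hp]
  have ps : p.s = s := by rw [hp]
  have pc : p.c = 100 * (l + 1) ^ 2 := by unfold Pr.c; rw [pl]
  rw [← pc]
  have hnM : n + 1 ≤ M := by rw [hM]; nlinarith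
  have av : Av p V A := ⟨by rw [pG]; exact hG, hA, by rw [ps, hs]; omega⟩
  have hcx : ∀ k ≤ M, Cx p (chain k) := fun k hk =>
    ⟨by rw [chain_len, pl]; omega, fun g hg => by
      have := chain_sz g hg
      rw [ps, hs]
      omega⟩
  -- the context
  have hdm : dn m ≤ V := by unfold dn; omega
  have c0 : Cx p (chain M ++ [Fm.eq 3 (dn m)]) := (hcx M le_rfl).snoc
    (by rw [chain_len, pl]; omega) (by rw [sz_eq, ps, hs]; omega)
  have H : Hs p (chain M ++ [Fm.eq 3 (dn m)]) V A M σ X n := by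
    refine ⟨⟨av, c0, fun g hg => List.mem_append_left _ hg, by omega⟩, ?_, ?_, ?_⟩
    · intro g hg
      rcases List.mem_append.1 hg with hg | hg
      · exact ⟨chain_free (by omega) g hg, chain_free (by omega) g hg,
          chain_free (by omega) g hg⟩
      · rw [List.mem_singleton] at hg
        rw [hg]
        have := dn_ge m
        simp only [Fm.Free]
        omega
    · rw [List.length_append, chain_len, List.length_singleton, pl]
      omega
    · rw [ps, hs]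
      omega
  -- the colours
  have hWn := sz_Wn (dn m)
  have hWn' : sz (Wn (dn m)) ≤ 3 * dn m + 1000 := by
    simp only [Wn, col, lt, sz_all, sz_imp, sz_op]
    omega
  have cW : Cx p (chain m ++ [Wn (dn m)]) := (hcx m hm).snoc
    (by rw [chain_len, pl]; omega) (by rw [ps, hs]; omega)
  have w1 : Dc p (chain m ++ [Wn (dn m)]) N1 .bot :=
    ⟨cW, by rw [sz_bot, ps, hs]; omega, by rw [pG, pL]; exact hW⟩
  have w2 : Dc p (chain m) N1 (Fm.neg (Wn (dn m))) := w1.impI (by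
    rw [sz_imp, sz_bot, ps, hs]
    omega)
  have w3 := w2.sub (Δ' := chain M ++ [Fm.eq 3 (dn m)])
    (fun g hg => List.mem_append_left _ (chain_sub hm g hg)) c0
  have t1 : Dc p (chain M ++ [Fm.eq 3 (dn m)]) (NT + p.c) (Th σ X) :=
    .thm c0 (by rw [ps, hs]; nlinarith [Nat.one_le_pow 6 (V + 1) (by omega)])
      (by rw [pG, pL]; exact hT)
  -- the claims
  have b1 := H.base hX (by omega) hm (by simp) t1 hA' w3
  have b2 := H.downs (k := n) (q := m) (j := 0) (by omega) (by omega) b1 (M - m) (by omega)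
  have e1 : m + (M - m) = (n + 1) ^ 2 := by omega
  rw [e1] at b2
  have b3 := H.num2 (by omega) b2
  obtain ⟨Z, hZ⟩ : ∃ Z, Z = dnum 2 (num (Str2 σ n)) X := ⟨_, rfl⟩
  rw [← hZ] at b3 ⊢
  have szZ : sz Z ≤ sz X + σ.length * 57 + n * 2451 + 1200 := by
    rw [hZ, dnum_Str2, sz_all, sz_imp, sz_zero]
    have h1 := sz_digs 2 (Rem σ X n) (pz 3)
    have h2 := sz_Rem σ X n
    rw [pz_len] at h1
    omega
  have b4 := b3.impI (by rw [sz_imp, sz_eq, ps, hs]; omega)
  have b5 := b4.allI (x := 3) (chain_free (by omega)) (by rw [sz_all, sz_imp, sz_eq, ps, hs]; omega)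
  have H3 : Ht p (chain M) V A M Z := by
    refine ⟨⟨av, hcx M le_rfl, fun g hg => hg, by omega⟩, fun g hg =>
      ⟨chain_free (by omega) g hg, chain_free (by omega) g hg, chain_free (by omega) g hg⟩,
      by rw [chain_len, pl]; omega, by rw [ps, hs]; omega⟩
  have b6 := H3.num3 hm b5
  have hcl : (dnum 3 m Z).Closed := by rw [hZ]; exact closed_final hX
  have szF : sz (dnum 3 m Z) ≤ sz Z + M * 61 + 30 := by
    have h1 := sz_digs 3 Z (digits m)
    have e2 : (digits m).length ≤ m := by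
      have := len_le_num (digits m)
      rwa [num_digits] at this
    have e5 : (digits m).length * (4 * 3 + 49) ≤ M * 61 := Nat.mul_le_mul (by omega) (by omega)
    unfold dnum
    rw [sz_all, sz_imp, sz_zero]
    omega
  have b7 := av.elim hcl b6 (by omega) (by omega) (by rw [ps, hs]; omega)
  rw [pG, pL] at b7
  refine b7.mono ?_
  have q1 : (M - m) * (16 * p.c) ≤ (M + 1) * (16 * p.c) := Nat.mul_le_mul_right _ (by omega)
  have q2 : 1 * (100 * p.c) ≤ (M + 1) * (100 * p.c) := Nat.mul_le_mul_right _ (by omega)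
  have q3 : 1 * ((M + 1) * (180 * p.c)) ≤ (M + 1) * ((M + 1) * (180 * p.c)) :=
    Nat.mul_le_mul_right _ (by omega)
  have q4 : (M + 1) * ((M + 1) * (2400 * p.c)) = (M + 1) * ((M + 1) * (2100 * p.c)) +
    (M + 1) * ((M + 1) * (120 * p.c)) + (M + 1) * ((M + 1) * (180 * p.c)) := by ring
  have q5 : (M + 1) * (180 * p.c) = (M + 1) * (16 * p.c) + (M + 1) * (100 * p.c) +
    (M + 1) * (30 * p.c) + (M + 1) * (34 * p.c) := by ring
  omega

/-- MODULE 6 -/
theorem shortQ (hw : ∃ N L : ℕ → ℕ, PF N ∧ PF L ∧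
    ∀ n, Dv WB 15 (L n) [] (N n) (imps (chain n ++ [Wn (dn n)]) .bot)) : ShortQT := by
  obtain ⟨N1, L1, hN1, hL1, hw⟩ := hw
  rintro G σ X hG hX ⟨π, hπ⟩
  obtain ⟨A, hA⟩ : ∃ A, A = (strs (Th σ X :: π)).length + (strs WF).length := ⟨_, rfl⟩
  have pM : PF fun n => (n + 1) ^ 2 := (PF.id.add (PF.const 1)).pow 2
  have pV : PF fun n => 6 * (n + 1) ^ 2 + 100 := ((PF.const 6).mul pM).add (PF.const 100)
  have ps : PF fun n => A * (6 * (n + 1) ^ 2 + 100 + 1) ^ 6 +
      4 * (sz X + σ.length * 57 + n * 2451 + 1200) + 8 * (6 * (n + 1) ^ 2 + 100) +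
      200 * (n + 1) ^ 2 + 30000 :=
    (((((PF.const A).mul ((pV.add (PF.const 1)).pow 6)).add ((PF.const 4).mul
      ((((PF.const (sz X)).add (PF.const (σ.length * 57))).add (PF.id.mul (PF.const 2451))).add
        (PF.const 1200)))).add ((PF.const 8).mul pV)).add ((PF.const 200).mul pM)).add
      (PF.const 30000)
  have pl : PF fun n => (n + 1) ^ 2 + 10 := pM.add (PF.const 10)
  have pL : PF fun n => 1000 * (((n + 1) ^ 2 + 10 + 1) * ((A * (6 * (n + 1) ^ 2 + 100 + 1) ^ 6 +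
      4 * (sz X + σ.length * 57 + n * 2451 + 1200) + 8 * (6 * (n + 1) ^ 2 + 100) +
      200 * (n + 1) ^ 2 + 30000) + 4) + 1) + (L1 ((n + 1) ^ 2) + A) :=
    ((PF.const 1000).mul (((pl.add (PF.const 1)).mul (ps.add (PF.const 4))).add
      (PF.const 1))).add ((PF.comp' hL1 pM).add (PF.const A))
  have pN : PF fun n => (π.length + 1) + N1 ((n + 1) ^ 2) +
      ((n + 1) ^ 2 + 1) * (((n + 1) ^ 2 + 1) *
        (2400 * (100 * ((n + 1) ^ 2 + 10 + 1) ^ 2))) :=
    ((PF.const (π.length + 1)).add (PF.comp' hN1 pM)).add ((pM.add (PF.const 1)).mul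
      ((pM.add (PF.const 1)).mul ((PF.const 2400).mul ((PF.const 100).mul
        ((pl.add (PF.const 1)).pow 2)))))
  obtain ⟨q, hq⟩ := (pN.add (PF.const 1)).mul pL
  refine ⟨q, fun n m hm => ?_⟩
  rw [hq]
  have hsz : ∀ φ ∈ Th σ X :: π, sz φ ≤ (strs (Th σ X :: π)).length := fun φ hφ =>
    Pool.Agent.J6H77.BC.len_mem hφ
  have hsz' : ∀ φ ∈ WF, sz φ ≤ (strs WF).length := fun φ hφ => Pool.Agent.J6H77.BC.len_mem hφ
  have hT : Dw G A (π.length + 1) (Th σ X) :=
    ⟨Th σ X :: π, hπ, le_rfl, fun ψ hψ => (hsz ψ hψ).trans (by omega), List.mem_cons_self⟩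
  have hW := ((Dw.of_dv (hw m)).monoA (Γ' := G) fun φ hφ => hG φ (by
    unfold WF
    exact List.mem_append_left _ hφ)).mono (PF.mono' hN1 hm)
  have hW' := hW.monoL (PF.mono' hL1 hm)
  clear pM pV ps pl pL pN hq
  exact (short_core (V := 6 * (n + 1) ^ 2 + 100) (A := A) (s := A * (6 * (n + 1) ^ 2 + 100 + 1) ^ 6 +
      4 * (sz X + σ.length * 57 + n * 2451 + 1200) + 8 * (6 * (n + 1) ^ 2 + 100) +
      200 * (n + 1) ^ 2 + 30000) (l := (n + 1) ^ 2 + 10) hG hX (by omega) rfl rfl rfl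
    (fun φ hφ => (hsz' φ hφ).trans (by omega))
    ((hsz _ List.mem_cons_self).trans (by omega)) rfl (hT.monoL (by omega)) hm
    (hW'.monoL (by omega))).proves

end Pool.Agent.J6H58.MC
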